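import Mathlib

/-!
# Ky Fan's principle and Weyl's monotonicity for diagonalised quadratic forms
-/

namespace Pool.Agent.Q197.Ky

open Finset

/-- A linear programming bound. -/
theorem lp {N : ℕ} (lam om : Fin N → ℝ) (hl : Antitone lam) (h0 : ∀ p, 0 ≤ om p)
    (h1 : ∀ p, om p ≤ 1) (t : ℕ) (hs : ∑ p, om p = t) :
    ∑ p, lam p * om p ≤ ∑ p : Fin N, if (p : ℕ) < t then lam p else 0 := by
  have htN : t ≤ N := by
    have : (t : ℝ) ≤ N := by
      rw [← hs]
      calc ∑ p, om p ≤ ∑ _p : Fin N, (1 : ℝ) := Finset.sum_le_sum fun p _ => h1 p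
        _ = N := by simp
    exact_mod_cast this
  obtain ⟨c, hc1, hc2⟩ : ∃ c : ℝ, (∀ p : Fin N, (p : ℕ) < t → c ≤ lam p) ∧
      (∀ p : Fin N, t ≤ (p : ℕ) → lam p ≤ c) := by
    rcases Nat.lt_or_ge t N with h | h
    · refine ⟨lam ⟨t, h⟩, fun p hp => hl ?_, fun p hp => hl ?_⟩
      · exact Fin.le_def.2 hp.le
      · exact Fin.le_def.2 hp
    · rcases Nat.eq_zero_or_pos N with h' | h'
      · subst h'
        exact ⟨0, fun p => p.elim0, fun p => p.elim0⟩
      · refine ⟨lam ⟨N - 1, by omega⟩, fun p _ => hl ?_, fun p hp => ?_⟩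
        · exact Fin.le_def.2 (by have := p.2; simp; omega)
        · have := p.2
          omega
  have hcount : ∑ p : Fin N, (if (p : ℕ) < t then (1 : ℝ) else 0) = t := by
    rw [← Finset.sum_range (fun i => if i < t then (1 : ℝ) else 0), Finset.sum_boole]
    congr 1
    have : (Finset.range N).filter (fun i => i < t) = Finset.range t := by
      ext i
      simp
      omega
    rw [this]
    simp
  have hp : ∀ p : Fin N, lam p * om p ≤ (if (p : ℕ) < t then lam p else 0) +
      c * (om p - if (p : ℕ) < t then (1 : ℝ) else 0) := by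
    intro p
    split_ifs with h
    · have := hc1 p h
      nlinarith [h1 p, h0 p]
    · have := hc2 p (not_lt.1 h)
      nlinarith [h1 p, h0 p]
  calc ∑ p, lam p * om p ≤ ∑ p : Fin N, ((if (p : ℕ) < t then lam p else 0) +
      c * (om p - if (p : ℕ) < t then (1 : ℝ) else 0)) := Finset.sum_le_sum fun p _ => hp p
    _ = (∑ p : Fin N, if (p : ℕ) < t then lam p else 0) := by
      rw [Finset.sum_add_distrib, ← Finset.mul_sum, Finset.sum_sub_distrib, hs, hcount]
      ring

/-- Abel summation. -/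
theorem abel {n : ℕ} (F z w : Fin n → ℝ) (hF : Antitone F) (h0 : ∀ i, 0 ≤ F i)
    (h : ∀ k ≤ n, (∑ i : Fin n, if (i : ℕ) < k then z i else 0) ≤
      ∑ i : Fin n, if (i : ℕ) < k then w i else 0) :
    ∑ i, F i * z i ≤ ∑ i, F i * w i := by
  let G : ℕ → ℝ := fun i => if h : i < n then F ⟨i, h⟩ else 0
  let d : ℕ → ℝ := fun i => if h : i < n then w ⟨i, h⟩ - z ⟨i, h⟩ else 0
  have hG0 : ∀ i, 0 ≤ G i := by
    intro i
    by_cases hi : i < n
    · simp only [G, hi, dif_pos]
      exact h0 _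
    · simp [G, hi]
  have hG : ∀ i, G (i + 1) ≤ G i := by
    intro i
    by_cases hi : i + 1 < n
    · simp only [G, hi, dif_pos, show i < n by omega]
      exact hF (Fin.le_def.2 (by simp))
    · have : G (i + 1) = 0 := by simp [G, hi]
      rw [this]
      exact hG0 i
  have hD : ∀ k ≤ n, 0 ≤ ∑ i ∈ Finset.range k, d i := by
    intro k hk
    have h1 : ∑ i ∈ Finset.range k, d i =
        ∑ i ∈ Finset.range n, (if i < k then d i else 0) := by
      rw [← Finset.sum_filter]
      congr 1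
      ext i
      simp
      omega
    rw [h1, Finset.sum_range]
    have h2 : ∑ i : Fin n, (if (i : ℕ) < k then d i else 0) =
        (∑ i : Fin n, if (i : ℕ) < k then w i else 0) -
        ∑ i : Fin n, if (i : ℕ) < k then z i else 0 := by
      rw [← Finset.sum_sub_distrib]
      refine Finset.sum_congr rfl fun i _ => ?_
      have : d (i : ℕ) = w i - z i := by
        simp [d]
      rw [this]
      split_ifs <;> ring
    rw [h2]
    linarith [h k hk]
  have key : ∀ k ≤ n, G k * ∑ i ∈ Finset.range k, d i ≤ ∑ i ∈ Finset.range k, G i * d i := by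
    intro k
    induction k with
    | zero => intro _; simp
    | succ k ih =>
      intro hk
      have h1 := ih (by omega)
      have h2 := hD (k + 1) hk
      rw [Finset.sum_range_succ] at h2
      rw [Finset.sum_range_succ, Finset.sum_range_succ]
      have h3 := hG k
      nlinarith
  have h1 := key n le_rfl
  have h2 : 0 ≤ G n * ∑ i ∈ Finset.range n, d i := mul_nonneg (hG0 n) (hD n le_rfl)
  have h3 : ∑ i ∈ Finset.range n, G i * d i = ∑ i : Fin n, (F i * w i - F i * z i) := by
    rw [Finset.sum_range]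
    refine Finset.sum_congr rfl fun i _ => ?_
    simp only [G, d, i.2, dif_pos, Fin.eta]
    ring
  rw [Finset.sum_sub_distrib] at h3
  linarith

variable {E : Type*} [NormedAddCommGroup E] [InnerProductSpace ℂ E]

/-- The quadratic form `q` is diagonal in the orthonormal basis `b`, with the non-increasing
coefficients `lam`. -/
structure Dec {N : ℕ} (q : E → ℝ) (b : OrthonormalBasis (Fin N) ℂ E) (lam : Fin N → ℝ) :
    Prop where
  anti : Antitone lam
  eq : ∀ x, q x = ∑ l, lam l * ‖inner ℂ (b l) x‖ ^ 2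

theorem Dec.basis {N : ℕ} {q : E → ℝ} {b : OrthonormalBasis (Fin N) ℂ E} {lam : Fin N → ℝ}
    (h : Dec q b lam) (l : Fin N) : q (b l) = lam l := by
  rw [h.eq, Finset.sum_eq_single l]
  · simp
  · intro k _ hk
    rw [b.inner_eq_zero hk]
    simp
  · simp

/-- Ky Fan's principle. -/
theorem ky {N : ℕ} {q : E → ℝ} {b : OrthonormalBasis (Fin N) ℂ E} {lam : Fin N → ℝ}
    (h : Dec q b lam) {κ : Type*} [Fintype κ] (v : κ → E)
    (hv : ∀ x, ∑ k, ‖inner ℂ (v k) x‖ ^ 2 ≤ ‖x‖ ^ 2) (t : ℕ) (ht : ∑ k, ‖v k‖ ^ 2 = t) :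
    ∑ k, q (v k) ≤ ∑ p : Fin N, if (p : ℕ) < t then lam p else 0 := by
  have h1 : ∑ k, q (v k) = ∑ p, lam p * ∑ k, ‖inner ℂ (v k) (b p)‖ ^ 2 := by
    simp_rw [h.eq, Finset.mul_sum]
    rw [Finset.sum_comm]
    refine Finset.sum_congr rfl fun p _ => Finset.sum_congr rfl fun k _ => ?_
    rw [norm_inner_symm]
  rw [h1]
  refine lp lam _ h.anti (fun p => Finset.sum_nonneg fun k _ => by positivity)
    (fun p => ?_) t ?_
  · refine (hv (b p)).trans ?_
    rw [b.norm_eq_one]
    norm_num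
  · rw [Finset.sum_comm, ← ht]
    refine Finset.sum_congr rfl fun k _ => ?_
    rw [← b.sum_sq_norm_inner_left]

/-- Weyl's monotonicity. -/
theorem weyl {N : ℕ} {q q' : E → ℝ} {b b' : OrthonormalBasis (Fin N) ℂ E} {lam lam' : Fin N → ℝ}
    (h : Dec q b lam) (h' : Dec q' b' lam') (hq : ∀ x, q x ≤ q' x) (p : Fin N) :
    lam p ≤ lam' p := by
  let f : E →ₗ[ℂ] ({a : Fin N // a ≠ p} → ℂ) := LinearMap.pi fun a =>
    if (a : Fin N) < p then (innerSL ℂ (b' a)).toLinearMap else (innerSL ℂ (b a)).toLinearMap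
  have hfin : Module.finrank ℂ E = N := by
    have := Module.finrank_eq_card_basis b.toBasis
    simpa using this
  have hN : 0 < N := lt_of_le_of_lt (Nat.zero_le _) p.2
  have : FiniteDimensional ℂ E := Module.Basis.finiteDimensional_of_finite b.toBasis
  have hker : LinearMap.ker f ≠ ⊥ := by
    apply LinearMap.ker_ne_bot_of_finrank_lt
    rw [hfin, Module.finrank_fintype_fun_eq_card, Fintype.card_subtype_compl]
    simp
    omega
  obtain ⟨x, hx, hx0⟩ := Submodule.exists_mem_ne_zero_of_ne_bot hker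
  have hfx : f x = 0 := LinearMap.mem_ker.1 hx
  have h1 : ∀ a : Fin N, a < p → inner ℂ (b' a) x = 0 := by
    intro a ha
    have := congrFun hfx ⟨a, ha.ne⟩
    simpa [f, ha] using this
  have h2 : ∀ a : Fin N, p < a → inner ℂ (b a) x = 0 := by
    intro a ha
    have := congrFun hfx ⟨a, ha.ne'⟩
    simpa [f, not_lt.2 ha.le] using this
  have hx1 : 0 < ‖x‖ ^ 2 := by positivity
  have h3 : lam p * ‖x‖ ^ 2 ≤ q x := by
    rw [h.eq, ← b.sum_sq_norm_inner_right, Finset.mul_sum]
    refine Finset.sum_le_sum fun a _ => ?_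
    rcases le_or_gt a p with hap | hap
    · exact mul_le_mul_of_nonneg_right (h.anti hap) (by positivity)
    · rw [h2 a hap]
      simp
  have h4 : q' x ≤ lam' p * ‖x‖ ^ 2 := by
    rw [h'.eq, ← b'.sum_sq_norm_inner_right, Finset.mul_sum]
    refine Finset.sum_le_sum fun a _ => ?_
    rcases lt_or_ge a p with hap | hap
    · rw [h1 a hap]
      simp
    · exact mul_le_mul_of_nonneg_right (h'.anti hap) (by positivity)
  have h5 := hq x
  exact le_of_mul_le_mul_right (h3.trans (h5.trans h4)) hx1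

/-- The spectral theorem. -/
theorem dec_symm [FiniteDimensional ℂ E] {N : ℕ} (T : E →ₗ[ℂ] E) (hT : T.IsSymmetric)
    (hn : Module.finrank ℂ E = N) :
    Dec (fun x => (inner ℂ x (T x)).re) (hT.eigenvectorBasis hn) (hT.eigenvalues hn) := by
  refine ⟨LinearMap.IsSymmetric.eigenvalues_antitone hT hn, fun x => ?_⟩
  have h1 : inner ℂ x (T x) = ∑ l, ((hT.eigenvalues hn l : ℝ) : ℂ) *
      ((‖inner ℂ (hT.eigenvectorBasis hn l) x‖ ^ 2 : ℝ) : ℂ) := by
    rw [← (hT.eigenvectorBasis hn).sum_inner_mul_inner x (T x)]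
    refine Finset.sum_congr rfl fun l _ => ?_
    have h2 : inner ℂ (hT.eigenvectorBasis hn l) (T x) =
        ((hT.eigenvalues hn l : ℝ) : ℂ) * inner ℂ (hT.eigenvectorBasis hn l) x := by
      rw [← hT, LinearMap.IsSymmetric.apply_eigenvectorBasis, inner_smul_left]
      simp
    rw [h2]
    have h3 : inner ℂ x (hT.eigenvectorBasis hn l) * inner ℂ (hT.eigenvectorBasis hn l) x =
        ((‖inner ℂ (hT.eigenvectorBasis hn l) x‖ ^ 2 : ℝ) : ℂ) := by
      rw [← inner_conj_symm, ← Complex.normSq_eq_conj_mul_self, Complex.normSq_eq_norm_sq]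
    rw [← h3]
    ring
  show (inner ℂ x (T x)).re = _
  rw [h1, Complex.re_sum]
  refine Finset.sum_congr rfl fun l _ => ?_
  rw [← Complex.ofReal_mul, Complex.ofReal_re]

/-- The form `x ↦ ∑ |⟨g k, x⟩|²` is diagonalisable. -/
theorem dec_gram [FiniteDimensional ℂ E] {N : ℕ} (hn : Module.finrank ℂ E = N) {κ : Type*}
    [Fintype κ] (g : κ → E) :
    ∃ (b : OrthonormalBasis (Fin N) ℂ E) (lam : Fin N → ℝ),
      Dec (fun x => ∑ k, ‖inner ℂ (g k) x‖ ^ 2) b lam := by
  let T : E →ₗ[ℂ] E := ∑ k, ((innerSL ℂ (g k)).toLinearMap).smulRight (g k)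
  have hTx : ∀ x, T x = ∑ k, inner ℂ (g k) x • g k := by
    intro x
    simp [T, LinearMap.sum_apply]
  have hT : T.IsSymmetric := by
    intro x y
    rw [hTx, hTx, sum_inner, inner_sum]
    refine Finset.sum_congr rfl fun k _ => ?_
    rw [inner_smul_left, inner_smul_right, inner_conj_symm]
    ring
  refine ⟨hT.eigenvectorBasis hn, hT.eigenvalues hn, ?_⟩
  have h := dec_symm T hT hn
  refine ⟨h.anti, fun x => ?_⟩
  rw [← h.eq]
  show _ = (inner ℂ x (T x)).re
  rw [hTx, inner_sum, Complex.re_sum]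
  refine Finset.sum_congr rfl fun k _ => ?_
  rw [inner_smul_right, ← inner_conj_symm x, mul_comm, ← Complex.normSq_eq_conj_mul_self,
    Complex.normSq_eq_norm_sq, Complex.ofReal_re]

end Pool.Agent.Q197.Ky
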