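import Pool.Agent.Q197.KyA

/-!
# Product vectors and orthonormal families in a tensor product
-/

namespace Pool.Agent.Q197.Ky

open Finset

variable {m n : ℕ}

/-- The product vector `x ⊗ y`. -/
noncomputable def tens (x : EuclideanSpace ℂ (Fin m)) (y : EuclideanSpace ℂ (Fin n)) :
    EuclideanSpace ℂ (Fin m × Fin n) :=
  WithLp.toLp 2 fun p => x p.1 * y p.2

theorem tens_apply (x : EuclideanSpace ℂ (Fin m)) (y : EuclideanSpace ℂ (Fin n))
    (p : Fin m × Fin n) : tens x y p = x p.1 * y p.2 := rfl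

theorem norm_tens (x : EuclideanSpace ℂ (Fin m)) (y : EuclideanSpace ℂ (Fin n)) :
    ‖tens x y‖ ^ 2 = ‖x‖ ^ 2 * ‖y‖ ^ 2 := by
  rw [EuclideanSpace.norm_sq_eq, EuclideanSpace.norm_sq_eq, EuclideanSpace.norm_sq_eq,
    Fintype.sum_prod_type, Finset.sum_mul_sum]
  refine Finset.sum_congr rfl fun i _ => Finset.sum_congr rfl fun j _ => ?_
  rw [tens_apply, norm_mul, mul_pow]

/-- The partial inner product of `f` with `y`. -/
noncomputable def gv (f : EuclideanSpace ℂ (Fin m × Fin n)) (y : EuclideanSpace ℂ (Fin n)) :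
    EuclideanSpace ℂ (Fin m) :=
  WithLp.toLp 2 fun i => ∑ a, f (i, a) * star (y a)

/-- The partial inner product of `f` with `x`. -/
noncomputable def hv (f : EuclideanSpace ℂ (Fin m × Fin n)) (x : EuclideanSpace ℂ (Fin m)) :
    EuclideanSpace ℂ (Fin n) :=
  WithLp.toLp 2 fun a => ∑ i, f (i, a) * star (x i)

theorem inner_gv (f : EuclideanSpace ℂ (Fin m × Fin n)) (x : EuclideanSpace ℂ (Fin m))
    (y : EuclideanSpace ℂ (Fin n)) : inner ℂ (gv f y) x = inner ℂ f (tens x y) := by
  simp only [PiLp.inner_apply, gv, tens, RCLike.inner_apply, map_sum, map_mul,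
    Fintype.sum_prod_type]
  refine Finset.sum_congr rfl fun i _ => ?_
  rw [Finset.mul_sum]
  refine Finset.sum_congr rfl fun a _ => ?_
  simp
  ring

theorem inner_hv (f : EuclideanSpace ℂ (Fin m × Fin n)) (x : EuclideanSpace ℂ (Fin m))
    (y : EuclideanSpace ℂ (Fin n)) : inner ℂ (hv f x) y = inner ℂ f (tens x y) := by
  simp only [PiLp.inner_apply, hv, tens, RCLike.inner_apply, map_sum, map_mul,
    Fintype.sum_prod_type]
  rw [Finset.sum_comm]
  refine Finset.sum_congr rfl fun a _ => ?_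
  rw [Finset.mul_sum]
  refine Finset.sum_congr rfl fun i _ => ?_
  simp
  ring

/-- The standard basis of `ℂⁿ`. -/
noncomputable def st (n : ℕ) : OrthonormalBasis (Fin n) ℂ (EuclideanSpace ℂ (Fin n)) :=
  EuclideanSpace.basisFun (Fin n) ℂ

/-- `∑ₖ |⟨fₖ, x ⊗ y⟩|²` -/
noncomputable def TT {κ : Type*} [Fintype κ] (f : κ → EuclideanSpace ℂ (Fin m × Fin n))
    (x : EuclideanSpace ℂ (Fin m)) (y : EuclideanSpace ℂ (Fin n)) : ℝ :=
  ∑ k, ‖inner ℂ (f k) (tens x y)‖ ^ 2

theorem TT_nonneg {κ : Type*} [Fintype κ] (f : κ → EuclideanSpace ℂ (Fin m × Fin n))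
    (x : EuclideanSpace ℂ (Fin m)) (y : EuclideanSpace ℂ (Fin n)) : 0 ≤ TT f x y :=
  Finset.sum_nonneg fun k _ => by positivity

/-- The sum over an orthonormal basis of the second factor does not depend on the basis. -/
theorem TT_basis {κ : Type*} [Fintype κ] (f : κ → EuclideanSpace ℂ (Fin m × Fin n))
    (x : EuclideanSpace ℂ (Fin m))
    (q : OrthonormalBasis (Fin n) ℂ (EuclideanSpace ℂ (Fin n))) :
    ∑ b, TT f x (q b) = ∑ k, ‖hv (f k) x‖ ^ 2 := by
  simp only [TT]
  rw [Finset.sum_comm]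
  refine Finset.sum_congr rfl fun k _ => ?_
  rw [← q.sum_sq_norm_inner_left]
  refine Finset.sum_congr rfl fun b _ => ?_
  rw [inner_hv]

theorem TT_le {κ : Type*} [Fintype κ] {f : κ → EuclideanSpace ℂ (Fin m × Fin n)}
    (hf : ∀ z, ∑ k, ‖inner ℂ (f k) z‖ ^ 2 ≤ ‖z‖ ^ 2)
    (x : EuclideanSpace ℂ (Fin m)) (y : EuclideanSpace ℂ (Fin n)) :
    TT f x y ≤ ‖x‖ ^ 2 * ‖y‖ ^ 2 := by
  rw [← norm_tens]
  exact hf _

theorem count {N : ℕ} {t : ℕ} (h : t ≤ N) :
    ∑ p : Fin N, (if (p : ℕ) < t then (1 : ℝ) else 0) = t := by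
  rw [← Finset.sum_range (fun i => if i < t then (1 : ℝ) else 0), Finset.sum_boole]
  congr 1
  have : (Finset.range N).filter (fun i => i < t) = Finset.range t := by
    ext i
    simp
    omega
  rw [this]
  simp

/-- The marginal spectrum. -/
theorem marginal {κ : Type*} [Fintype κ] {f : κ → EuclideanSpace ℂ (Fin m × Fin n)}
    (hf : ∀ z, ∑ k, ‖inner ℂ (f k) z‖ ^ 2 ≤ ‖z‖ ^ 2) :
    ∃ s : Fin m → ℝ, Antitone s ∧ (∀ i, 0 ≤ s i) ∧ (∀ i, s i ≤ n) ∧
      ∑ i, s i = ∑ k, ‖f k‖ ^ 2 ∧
      ∀ (u : OrthonormalBasis (Fin m) ℂ (EuclideanSpace ℂ (Fin m)))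
        (q : OrthonormalBasis (Fin n) ℂ (EuclideanSpace ℂ (Fin n))) (k j : ℕ), k ≤ m → j ≤ n →
        (∑ i : Fin m, if (i : ℕ) < k then
          (∑ b : Fin n, if (b : ℕ) < j then TT f (u i) (q b) else 0) else 0) ≤
          ∑ i : Fin m, if (i : ℕ) < k then min (s i) j else 0 := by
  have hfin : Module.finrank ℂ (EuclideanSpace ℂ (Fin m)) = m := finrank_euclideanSpace_fin
  obtain ⟨r, s, hR⟩ := dec_gram hfin
    (fun p : κ × Fin n => gv (f p.1) (st n p.2))
  have hRx : ∀ x, (∑ p : κ × Fin n, ‖inner ℂ (gv (f p.1) (st n p.2)) x‖ ^ 2) =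
      ∑ k, ‖hv (f k) x‖ ^ 2 := by
    intro x
    rw [← TT_basis f x (st n), Fintype.sum_prod_type, Finset.sum_comm]
    refine Finset.sum_congr rfl fun b _ => Finset.sum_congr rfl fun k _ => ?_
    rw [inner_gv]
  have hs : ∀ i, s i = ∑ k, ‖hv (f k) (r i)‖ ^ 2 := by
    intro i
    rw [← hRx, hR.basis i]
  have hs0 : ∀ i, 0 ≤ s i := fun i => by
    rw [hs]
    exact Finset.sum_nonneg fun k _ => by positivity
  have hsn : ∀ i, s i ≤ n := by
    intro i
    rw [hs, ← TT_basis f (r i) (st n)]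
    calc ∑ b, TT f (r i) (st n b) ≤ ∑ b : Fin n, (1 : ℝ) := by
          refine Finset.sum_le_sum fun b _ => ?_
          refine (TT_le hf _ _).trans ?_
          rw [(r).norm_eq_one, (st n).norm_eq_one]
          norm_num
      _ = n := by simp
  refine ⟨s, hR.anti, hs0, hsn, ?_, ?_⟩
  · have h1 : ∑ i, s i = ∑ k, ∑ b : Fin n, ‖gv (f k) (st n b)‖ ^ 2 := by
      have : ∀ i, s i = ∑ k, ∑ b : Fin n, ‖inner ℂ (gv (f k) (st n b)) (r i)‖ ^ 2 := by
        intro i
        rw [← hR.basis i, ← Fintype.sum_prod_type']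
      simp_rw [this]
      rw [Finset.sum_comm]
      refine Finset.sum_congr rfl fun k _ => ?_
      rw [Finset.sum_comm]
      refine Finset.sum_congr rfl fun b _ => ?_
      rw [← r.sum_sq_norm_inner_left]
    rw [h1]
    refine Finset.sum_congr rfl fun k _ => ?_
    rw [EuclideanSpace.norm_sq_eq (f k), Fintype.sum_prod_type, Finset.sum_comm]
    refine Finset.sum_congr rfl fun b _ => ?_
    rw [EuclideanSpace.norm_sq_eq]
    refine Finset.sum_congr rfl fun i _ => ?_
    congr 2
    simp [gv, st, EuclideanSpace.basisFun_apply]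
  · intro u q k j hk hj
    obtain ⟨w, lam, hY⟩ := dec_gram hfin
      (fun p : κ × {b : Fin n // (b : ℕ) < j} => gv (f p.1) (q p.2))
    have hYx : ∀ x, (∑ p : κ × {b : Fin n // (b : ℕ) < j},
        ‖inner ℂ (gv (f p.1) (q p.2)) x‖ ^ 2) =
        ∑ b : Fin n, if (b : ℕ) < j then TT f x (q b) else 0 := by
      intro x
      rw [← Finset.sum_filter, Fintype.sum_prod_type, Finset.sum_comm]
      rw [Finset.sum_subtype (p := fun b : Fin n => (b : ℕ) < j) _ (by simp)]
      refine Finset.sum_congr rfl fun b _ => Finset.sum_congr rfl fun k _ => ?_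
      rw [inner_gv]
    have hle : ∀ p, lam p ≤ s p := by
      refine weyl hY hR fun x => ?_
      rw [hYx, hRx, ← TT_basis f x q]
      refine Finset.sum_le_sum fun b _ => ?_
      split_ifs
      · exact le_rfl
      · exact TT_nonneg _ _ _
    have hlj : ∀ p, lam p ≤ j := by
      intro p
      rw [← hY.basis p, hYx, ← count hj]
      refine Finset.sum_le_sum fun b _ => ?_
      split_ifs
      · refine (TT_le hf _ _).trans ?_
        rw [w.norm_eq_one, q.norm_eq_one]
        norm_num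
      · exact le_rfl
    have hky := ky hY (fun i : {i : Fin m // (i : ℕ) < k} => u i) (fun x => ?_) k ?_
    · refine le_trans (le_of_eq ?_) (hky.trans ?_)
      · rw [← Finset.sum_filter]
        rw [Finset.sum_subtype (p := fun b : Fin m => (b : ℕ) < k) _ (by simp)]
        refine Finset.sum_congr rfl fun i _ => ?_
        rw [hYx]
      · refine Finset.sum_le_sum fun p _ => ?_
        split_ifs
        · exact le_min (hle p) (hlj p)
        · exact le_rfl
    · rw [← u.sum_sq_norm_inner_right x]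
      rw [← Finset.sum_subtype (Finset.univ.filter fun b : Fin m => (b : ℕ) < k)
        (by simp) (fun i => ‖inner ℂ (u i) x‖ ^ 2)]
      exact Finset.sum_le_sum_of_subset_of_nonneg (Finset.filter_subset _ _)
        fun i _ _ => by positivity
    · rw [← Finset.sum_subtype (Finset.univ.filter fun b : Fin m => (b : ℕ) < k)
        (by simp) (fun i => ‖u i‖ ^ 2), Finset.sum_filter, ← count hk]
      refine Finset.sum_congr rfl fun i _ => ?_
      rw [u.norm_eq_one]
      norm_num

/-- The weights. -/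
noncomputable def xw (s : ℝ) (l : ℕ) : ℝ := min 1 (max 0 (s - l))

theorem xw_nonneg (s : ℝ) (l : ℕ) : 0 ≤ xw s l := le_min zero_le_one (le_max_left _ _)

theorem xw_le (s : ℝ) (l : ℕ) : xw s l ≤ 1 := min_le_left _ _

theorem xw_sum {s : ℝ} (hs : 0 ≤ s) (j : ℕ) : ∑ l ∈ Finset.range j, xw s l = min s j := by
  induction j with
  | zero => simp [hs]
  | succ j ih =>
    rw [Finset.sum_range_succ, ih, xw]
    push_cast
    rcases le_total s j with h | h
    · have e1 : max 0 (s - (j : ℝ)) = 0 := max_eq_left (by linarith)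
      have e2 : min s ((j : ℝ) + 1) = s := min_eq_left (by linarith)
      rw [min_eq_left h, e1, e2, min_eq_right zero_le_one]
      ring
    · rw [min_eq_right h, max_eq_right (by linarith)]
      rcases le_total s (j + 1) with h' | h'
      · rw [min_eq_left h', min_eq_right (by linarith)]
        ring
      · rw [min_eq_right h', min_eq_left (by linarith)]

theorem xw_sum_fin {s : ℝ} (hs : 0 ≤ s) {j : ℕ} (hj : j ≤ n) :
    (∑ l : Fin n, if (l : ℕ) < j then xw s l else 0) = min s j := by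
  rw [← xw_sum hs j, ← Finset.sum_range (fun i => if i < j then xw s i else 0),
    ← Finset.sum_filter]
  congr 1
  ext i
  simp
  omega

/-- The main estimate for one product. -/
theorem product_le {f : Type*} [Fintype f] (F : f → EuclideanSpace ℂ (Fin m × Fin n))
    {s : Fin m → ℝ} (hs0 : ∀ i, 0 ≤ s i)
    (u : OrthonormalBasis (Fin m) ℂ (EuclideanSpace ℂ (Fin m)))
    (q : OrthonormalBasis (Fin n) ℂ (EuclideanSpace ℂ (Fin n)))
    (h : ∀ k j : ℕ, k ≤ m → j ≤ n →
        (∑ i : Fin m, if (i : ℕ) < k then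
          (∑ b : Fin n, if (b : ℕ) < j then TT F (u i) (q b) else 0) else 0) ≤
          ∑ i : Fin m, if (i : ℕ) < k then min (s i) j else 0)
    (a : Fin m → ℝ) (b : Fin n → ℝ) (ha : Antitone a) (hb : Antitone b) (ha0 : ∀ i, 0 ≤ a i)
    (hb0 : ∀ i, 0 ≤ b i) :
    ∑ i, ∑ l, a i * b l * TT F (u i) (q l) ≤ ∑ i, ∑ l : Fin n, a i * b l * xw (s i) l := by
  have h1 := abel a (fun i => ∑ l, b l * TT F (u i) (q l)) (fun i => ∑ l : Fin n, b l * xw (s i) l)
    ha ha0 ?_
  · simp_rw [mul_assoc, ← Finset.mul_sum]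
    exact h1
  · intro k hk
    have h2 := abel b (fun l => ∑ i : Fin m, if (i : ℕ) < k then TT F (u i) (q l) else 0)
      (fun l => ∑ i : Fin m, if (i : ℕ) < k then xw (s i) l else 0) hb hb0 ?_
    · have h3 : ∀ (G : Fin m → Fin n → ℝ), (∑ i : Fin m, if (i : ℕ) < k then
          ∑ l, b l * G i l else 0) =
          ∑ l, b l * ∑ i : Fin m, if (i : ℕ) < k then G i l else 0 := by
        intro G
        simp_rw [Finset.mul_sum]
        rw [Finset.sum_comm]
        refine Finset.sum_congr rfl fun i _ => ?_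
        split_ifs
        · rfl
        · simp
      rw [h3 (fun i l => TT F (u i) (q l)), h3 (fun i l => xw (s i) l)]
      exact h2
    · intro j hj
      have h4 : ∀ (G : Fin m → Fin n → ℝ), (∑ l : Fin n, if (l : ℕ) < j then
          (∑ i : Fin m, if (i : ℕ) < k then G i l else 0) else 0) =
          ∑ i : Fin m, if (i : ℕ) < k then (∑ l : Fin n, if (l : ℕ) < j then G i l else 0)
            else 0 := by
        intro G
        have : ∀ l : Fin n, (if (l : ℕ) < j then
          (∑ i : Fin m, if (i : ℕ) < k then G i l else 0) else 0) =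
          ∑ i : Fin m, if (i : ℕ) < k then (if (l : ℕ) < j then G i l else 0) else 0 := by
          intro l
          split_ifs
          · rfl
          · simp
        simp_rw [this]
        rw [Finset.sum_comm]
        refine Finset.sum_congr rfl fun i _ => ?_
        split_ifs
        · rfl
        · simp
      rw [h4 (fun i l => TT F (u i) (q l)), h4 (fun i l => xw (s i) l)]
      refine (h k j hk hj).trans (le_of_eq ?_)
      refine Finset.sum_congr rfl fun i _ => ?_
      split_ifs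
      · rw [xw_sum_fin (hs0 i) hj]
      · rfl

end Pool.Agent.Q197.Ky
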