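import Pool.Agent.Q197.KyA

/-!
# Scalar Bregman divergences of `|t|^p` and an abstract Hlawka-type inequality
-/

namespace Pool.Agent.Q197.Sch

open Finset

/-- the derivative of `|t|^p` divided by `p` -/
noncomputable def gg (p t : ℝ) : ℝ := |t| ^ (p - 2) * t

/-- the Bregman divergence -/
noncomputable def bb (p s t : ℝ) : ℝ := |s| ^ p - |t| ^ p - p * gg p t * (s - t)

theorem gg_mul {p : ℝ} (hp : 1 < p) (t : ℝ) : gg p t * t = |t| ^ p := by
  unfold gg
  rcases eq_or_ne t 0 with h | h
  · subst h
    simp [Real.zero_rpow (by linarith : p ≠ 0)]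
  · have h' : 0 < |t| := abs_pos.2 h
    have : |t| ^ p = |t| ^ (p - 2) * |t| ^ (2 : ℝ) := by
      rw [← Real.rpow_add h']
      congr 1
      ring
    rw [this, Real.rpow_two, sq_abs]
    ring

theorem gg_zero {p : ℝ} : gg p 0 = 0 := by simp [gg]

theorem gg_mul_left (p s r : ℝ) : gg p (s * r) = gg p s * gg p r := by
  unfold gg
  rw [abs_mul, Real.mul_rpow (abs_nonneg _) (abs_nonneg _)]
  ring

/-- normalised divergence -/
noncomputable def HH (p r : ℝ) : ℝ := |r| ^ p - 1 - p * (r - 1)

theorem bb_scale {p : ℝ} (hp : 1 < p) (s r : ℝ) : bb p (s * r) s = |s| ^ p * HH p r := by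
  unfold bb HH
  rw [abs_mul, Real.mul_rpow (abs_nonneg _) (abs_nonneg _)]
  have := gg_mul hp s
  linear_combination (-p * (r - 1)) * this

theorem HH_nonneg {p : ℝ} (hp : 1 < p) (r : ℝ) : 0 ≤ HH p r := by
  unfold HH
  rcases le_or_gt 0 r with h | h
  · rw [abs_of_nonneg h]
    have := one_add_mul_self_le_rpow_one_add (s := r - 1) (by linarith) hp.le
    rw [add_sub_cancel] at this
    linarith
  · have : 0 ≤ |r| ^ p := by positivity
    nlinarith

theorem bb_nonneg {p : ℝ} (hp : 1 < p) (s t : ℝ) : 0 ≤ bb p s t := by
  rcases eq_or_ne t 0 with h | h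
  · subst h
    unfold bb
    rw [gg_zero]
    simp [Real.zero_rpow (by linarith : p ≠ 0)]
    positivity
  · have : s = t * (s / t) := by field_simp
    rw [this, bb_scale hp]
    exact mul_nonneg (by positivity) (HH_nonneg hp _)

/-- the constant -/
noncomputable def cc (p : ℝ) : ℝ := min 1 (p - 1) / (4 * p)

theorem cc_pos {p : ℝ} (hp : 1 < p) : 0 < cc p :=
  div_pos (lt_min one_pos (by linarith)) (by linarith)

theorem HH_ge {p : ℝ} (hp : 1 < p) (r : ℝ) :
    cc p * (p * (1 - gg p r) * (1 - r)) ≤ HH p r := by
  have hp0 : 0 < p := by linarith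
  set m := min 1 (p - 1) with hm
  have hm1 : m ≤ 1 := min_le_left _ _
  have hm2 : m ≤ p - 1 := min_le_right _ _
  have hm0 : 0 < m := lt_min one_pos (by linarith)
  have hcc : cc p * (p * (1 - gg p r) * (1 - r)) = m / 4 * ((1 - gg p r) * (1 - r)) := by
    unfold cc
    rw [← hm]
    field_simp
  rw [hcc]
  unfold HH
  rcases le_or_gt 0 r with h | h
  · -- nonnegative
    rcases eq_or_lt_of_le h with h0 | h0
    · rw [← h0, gg_zero]
      simp [Real.zero_rpow hp0.ne']
      linarith
    · have hg : gg p r = r ^ (p - 1) := by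
        unfold gg
        rw [abs_of_pos h0]
        nth_rewrite 2 [← Real.rpow_one r]
        rw [← Real.rpow_add h0]
        congr 1
        ring
      have hrp : |r| ^ p = r * r ^ (p - 1) := by
        rw [abs_of_pos h0]
        nth_rewrite 2 [← Real.rpow_one r]
        rw [← Real.rpow_add h0]
        congr 1
        ring
      rw [hg, hrp]
      set q := r ^ (p - 1) with hq
      have hq0 : 0 < q := by positivity
      -- the product is nonnegative
      have hprod : 0 ≤ (1 - q) * (1 - r) := by
        rcases le_total r 1 with h1 | h1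
        · have : q ≤ 1 := Real.rpow_le_one h0.le h1 (by linarith)
          exact mul_nonneg (by linarith) (by linarith)
        · have : 1 ≤ q := Real.one_le_rpow h1 (by linarith)
          nlinarith
      have hmain : m * ((1 - q) * (1 - r)) ≤ r * q - 1 - p * (r - 1) := by
        rcases le_total 2 p with h2 | h2
        · have hb := one_add_mul_self_le_rpow_one_add (s := r - 1) (p := p - 1) (by linarith)
            (by linarith)
          rw [add_sub_cancel, ← hq] at hb
          nlinarith
        · have hb := rpow_one_add_le_one_add_mul_self (s := r - 1) (p := 2 - p)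
            (by linarith) (by linarith) (by linarith)
          rw [add_sub_cancel] at hb
          have h3 : r ^ (2 - p) * q = r := by
            rw [hq, ← Real.rpow_add h0]
            norm_num
          have h4 : r ≤ (1 + (2 - p) * (r - 1)) * q := by
            calc r = r ^ (2 - p) * q := h3.symm
              _ ≤ (1 + (2 - p) * (r - 1)) * q := mul_le_mul_of_nonneg_right hb hq0.le
          nlinarith
      nlinarith
  · -- negative
    have hr0 : 0 < -r := by linarith
    have hg : gg p r = -((-r) ^ (p - 1)) := by
      unfold gg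
      rw [abs_of_neg h]
      have : (-r) ^ (p - 1) = (-r) ^ (p - 2) * (-r) := by
        nth_rewrite 3 [← Real.rpow_one (-r)]
        rw [← Real.rpow_add hr0]
        congr 1
        ring
      rw [this]
      ring
    have hrp : |r| ^ p = (-r) * (-r) ^ (p - 1) := by
      rw [abs_of_neg h]
      nth_rewrite 2 [← Real.rpow_one (-r)]
      rw [← Real.rpow_add hr0]
      congr 1
      ring
    rw [hg, hrp]
    set q := (-r) ^ (p - 1) with hq
    have hq0 : 0 < q := by positivity
    have hx : 0 ≤ -r * q := by positivity
    -- (1 + q)(1 - r) ≤ 4 max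
    have h1 : (1 + q) * (1 + -r) ≤ 2 * (1 + -r * q) + 2 * (-r * q) + 2 := by
      rcases le_total (-r) 1 with h1 | h1
      · have : q ≤ 1 := Real.rpow_le_one hr0.le h1 (by linarith)
        nlinarith
      · have : 1 ≤ q := Real.one_le_rpow h1 (by linarith)
        nlinarith
    nlinarith

/-- comparability of the two divergences -/
theorem bb_symm {p : ℝ} (hp : 1 < p) (s t : ℝ) : bb p s t ≤ (1 / cc p) * bb p t s := by
  have hc := cc_pos hp
  have hp0 : 0 < p := by linarith
  have key : cc p * (bb p s t + bb p t s) ≤ bb p t s := by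
    have hsum : bb p s t + bb p t s = p * (gg p s - gg p t) * (s - t) := by
      unfold bb
      ring
    rw [hsum]
    rcases eq_or_ne s 0 with h | h
    · subst h
      have h1 : bb p t 0 = |t| ^ p := by
        unfold bb
        rw [gg_zero]
        simp [Real.zero_rpow hp0.ne']
      rw [h1, gg_zero]
      have h2 : p * (0 - gg p t) * (0 - t) = p * |t| ^ p := by
        rw [← gg_mul hp t]
        ring
      rw [h2]
      have h3 : cc p * p ≤ 1 := by
        unfold cc
        have : min 1 (p - 1) ≤ 1 := min_le_left _ _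
        rw [div_mul_eq_mul_div, div_le_one (by linarith)]
        nlinarith
      have h4 : 0 ≤ |t| ^ p := by positivity
      nlinarith
    · have ht : t = s * (t / s) := by field_simp
      set r := t / s with hr
      rw [ht, bb_scale hp, gg_mul_left]
      have h1 := HH_ge hp r
      have h2 : p * (gg p s - gg p s * gg p r) * (s - s * r) =
          |s| ^ p * (p * (1 - gg p r) * (1 - r)) := by
        rw [← gg_mul hp s]
        ring
      rw [h2]
      have h3 : 0 ≤ |s| ^ p := by positivity
      nlinarith
  have h2 := bb_nonneg hp t s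
  rw [one_div, inv_mul_eq_div, le_div_iff₀ hc]
  nlinarith

/-- The abstract inequality. -/
theorem hlawka {V : Type*} [AddCommGroup V] [Module ℝ V] (N : V → ℝ) (K : ℝ) (hK : 0 ≤ K)
    (h0 : ∀ x, 0 ≤ N x) (hz : ∀ x, N x = 0 → x = 0)
    (hc : ∀ (c : ℝ) (x : V), 0 ≤ c → N (c • x) = c * N x)
    (hB : ∀ u, N u = 1 → ∃ l : V →ₗ[ℝ] ℝ, l u = 1 ∧ (∀ x, l x ≤ N x) ∧
      ∀ w, N w = 1 → 1 - l w ≤ K * (2 - N (u + w))) (x y z : V) :
    N x + N y + N z - N (x + y + z) ≤
      K * ((N x + N y - N (x + y)) + (N x + N z - N (x + z)) + (N y + N z - N (y + z))) := by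
  have hN0 : N 0 = 0 := by
    have := hc 0 0 le_rfl
    simpa using this
  have hunit : ∀ v, N v ≠ 0 → N ((N v)⁻¹ • v) = 1 := by
    intro v hv
    rw [hc _ _ (inv_nonneg.2 (h0 v)), inv_mul_cancel₀ hv]
  have hsup : ∀ v, N v ≠ 0 → ∃ l : V →ₗ[ℝ] ℝ, l v = N v ∧ (∀ x, l x ≤ N x) ∧
      ∀ w, N w = 1 → 1 - l w ≤ K * (2 - N ((N v)⁻¹ • v + w)) := by
    intro v hv
    obtain ⟨l, hl1, hl2, hl3⟩ := hB _ (hunit v hv)
    refine ⟨l, ?_, hl2, hl3⟩
    rw [map_smul, smul_eq_mul] at hl1
    field_simp at hl1
    linarith
  have tri : ∀ a b, N (a + b) ≤ N a + N b := by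
    intro a b
    by_cases h : N (a + b) = 0
    · rw [h]
      linarith [h0 a, h0 b]
    · obtain ⟨l, hl1, hl2, _⟩ := hsup _ h
      rw [← hl1, map_add]
      linarith [hl2 a, hl2 b]
  -- the main estimate
  have key : ∀ a b c, N a ≤ N c → N b ≤ N c → N a + N b + N c - N (a + b + c) ≤
      K * ((N a + N c - N (a + c)) + (N b + N c - N (b + c))) := by
    intro a b c hac hbc
    by_cases hcz : N c = 0
    · have ha : a = 0 := hz a (le_antisymm (hcz ▸ hac) (h0 a))
      have hb : b = 0 := hz b (le_antisymm (hcz ▸ hbc) (h0 b))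
      have hc' : c = 0 := hz c hcz
      subst ha hb hc'
      simp [hN0]
    · obtain ⟨l, hl1, hl2, hl3⟩ := hsup c hcz
      have hcpos : 0 < N c := lt_of_le_of_ne (h0 c) (Ne.symm hcz)
      have step : ∀ d, N d ≤ N c → N d - l d ≤ K * (N d + N c - N (d + c)) := by
        intro d hd
        by_cases hdz : N d = 0
        · have : d = 0 := hz d hdz
          subst this
          simp [hN0]
        · have hdpos : 0 < N d := lt_of_le_of_ne (h0 d) (Ne.symm hdz)
          have h1 := hl3 _ (hunit d hdz)
          have h2 : d + c = N d • ((N c)⁻¹ • c + (N d)⁻¹ • d) + (N c - N d) • ((N c)⁻¹ • c) := by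
            rw [smul_add, smul_smul, smul_smul, smul_smul, mul_inv_cancel₀ hdz, one_smul,
              sub_mul, sub_smul, mul_inv_cancel₀ hcz, one_smul]
            try abel
          have h3 : N (d + c) ≤ N d * N ((N c)⁻¹ • c + (N d)⁻¹ • d) + (N c - N d) := by
            calc N (d + c) ≤ N (N d • ((N c)⁻¹ • c + (N d)⁻¹ • d)) +
                  N ((N c - N d) • ((N c)⁻¹ • c)) := by
                  conv_lhs => rw [h2]
                  exact tri _ _
              _ = _ := by
                  rw [hc _ _ (h0 d), hc _ _ (by linarith : 0 ≤ N c - N d), hunit c hcz, mul_one]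
          have h4 : N d * (1 - l ((N d)⁻¹ • d)) = N d - l d := by
            rw [map_smul, smul_eq_mul]
            field_simp
          have h5 : N d * (1 - l ((N d)⁻¹ • d)) ≤
              N d * (K * (2 - N ((N c)⁻¹ • c + (N d)⁻¹ • d))) :=
            mul_le_mul_of_nonneg_left h1 (h0 d)
          have h6 : K * (N d * 2 - N d * N ((N c)⁻¹ • c + (N d)⁻¹ • d)) ≤
              K * (N d + N c - N (d + c)) := mul_le_mul_of_nonneg_left (by linarith) hK
          nlinarith
      have h1 := hl2 (a + b + c)
      rw [map_add, map_add, hl1] at h1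
      have h2 := step a hac
      have h3 := step b hbc
      nlinarith
  have hxy := tri x y
  have hxz := tri x z
  have hyz := tri y z
  have e1 : 0 ≤ K * (N x + N y - N (x + y)) := mul_nonneg hK (by linarith)
  have e2 : 0 ≤ K * (N x + N z - N (x + z)) := mul_nonneg hK (by linarith)
  have e3 : 0 ≤ K * (N y + N z - N (y + z)) := mul_nonneg hK (by linarith)
  rcases le_total (N x) (N z) with h1 | h1
  · rcases le_total (N y) (N z) with h2 | h2
    · have := key x y z h1 h2
      nlinarith
    · have := key x z y (h1.trans h2) h2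
      have a1 : x + z + y = x + y + z := by abel
      have a2 : z + y = y + z := by abel
      rw [a1, a2] at this
      nlinarith
  · rcases le_total (N y) (N x) with h2 | h2
    · have := key y z x h2 h1
      have a1 : y + z + x = x + y + z := by abel
      have a2 : y + x = x + y := by abel
      have a3 : z + x = x + z := by abel
      rw [a1, a2, a3] at this
      nlinarith
    · have := key x z y h2 (h1.trans h2)
      have a1 : x + z + y = x + y + z := by abel
      have a2 : z + y = y + z := by abel
      rw [a1, a2] at this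
      nlinarith

end Pool.Agent.Q197.Sch
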