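import Pool.Agent.Q197.SchA

/-!
# The Hlawka-type inequality for Schatten norms with `1 < p < ∞`
-/

namespace Pool.Agent.Q197.Sch

open Finset Matrix

section op

variable {E : Type*} [NormedAddCommGroup E] [InnerProductSpace ℂ E] {n : ℕ}

/-- orthonormal eigenbasis -/
def Eig (T : E →ₗ[ℂ] E) (b : OrthonormalBasis (Fin n) ℂ E) (mu : Fin n → ℝ) : Prop :=
  ∀ i, T (b i) = ((mu i : ℝ) : ℂ) • b i

theorem Eig.qf {T : E →ₗ[ℂ] E} {b : OrthonormalBasis (Fin n) ℂ E} {mu : Fin n → ℝ}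
    (h : Eig T b mu) (v : E) :
    (inner ℂ v (T v)).re = ∑ i, mu i * ‖inner ℂ (b i) v‖ ^ 2 := by
  have h1 : T v = ∑ i, inner ℂ (b i) v • (((mu i : ℝ) : ℂ) • b i) := by
    conv_lhs => rw [← b.sum_repr' v, map_sum]
    refine Finset.sum_congr rfl fun i _ => ?_
    rw [map_smul, h i]
  rw [h1, inner_sum, Complex.re_sum]
  refine Finset.sum_congr rfl fun i _ => ?_
  rw [inner_smul_right, inner_smul_right]
  have h3 : inner ℂ v (b i) * inner ℂ (b i) v = ((‖inner ℂ (b i) v‖ ^ 2 : ℝ) : ℂ) := by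
    rw [← inner_conj_symm, ← Complex.normSq_eq_conj_mul_self, Complex.normSq_eq_norm_sq]
  have h4 : inner ℂ (b i) v * (((mu i : ℝ) : ℂ) * inner ℂ v (b i)) =
      ((mu i * ‖inner ℂ (b i) v‖ ^ 2 : ℝ) : ℂ) := by
    rw [Complex.ofReal_mul, ← h3]
    ring
  rw [h4, Complex.ofReal_re]

/-- `∑ |μ_i|^p` -/
noncomputable def Fp (p : ℝ) (mu : Fin n → ℝ) : ℝ := ∑ i, |mu i| ^ p

/-- the derivative at the operator with eigenbasis `b` and eigenvalues `μ` -/
noncomputable def LL (p : ℝ) (b : OrthonormalBasis (Fin n) ℂ E) (mu : Fin n → ℝ)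
    (S : E →ₗ[ℂ] E) : ℝ := ∑ j, gg p (mu j) * (inner ℂ (b j) (S (b j))).re

theorem LL_self {p : ℝ} (hp : 1 < p) {T : E →ₗ[ℂ] E} {b : OrthonormalBasis (Fin n) ℂ E}
    {mu : Fin n → ℝ} (h : Eig T b mu) : LL p b mu T = Fp p mu := by
  unfold LL Fp
  refine Finset.sum_congr rfl fun j _ => ?_
  rw [h j, inner_smul_right, ← gg_mul hp]
  simp

/-- Klein's formula. -/
theorem klein {p : ℝ} (hp : 1 < p) {S T : E →ₗ[ℂ] E} {a b : OrthonormalBasis (Fin n) ℂ E}
    {lam mu : Fin n → ℝ} (hS : Eig S a lam) :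
    Fp p lam - Fp p mu - p * LL p b mu S + p * Fp p mu =
      ∑ i, ∑ j, ‖inner ℂ (a i) (b j)‖ ^ 2 * bb p (lam i) (mu j) := by
  have hW1 : ∀ i, ∑ j, ‖inner ℂ (a i) (b j)‖ ^ 2 = 1 := by
    intro i
    rw [b.sum_sq_norm_inner_left, a.norm_eq_one]
    norm_num
  have hW2 : ∀ j, ∑ i, ‖inner ℂ (a i) (b j)‖ ^ 2 = 1 := by
    intro j
    rw [a.sum_sq_norm_inner_right, b.norm_eq_one]
    norm_num
  have h1 : LL p b mu S = ∑ i, ∑ j, ‖inner ℂ (a i) (b j)‖ ^ 2 * (gg p (mu j) * lam i) := by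
    unfold LL
    rw [Finset.sum_comm]
    refine Finset.sum_congr rfl fun j _ => ?_
    rw [hS.qf, Finset.mul_sum]
    refine Finset.sum_congr rfl fun i _ => ?_
    ring
  have h2 : Fp p lam = ∑ i, ∑ j, ‖inner ℂ (a i) (b j)‖ ^ 2 * |lam i| ^ p := by
    unfold Fp
    refine Finset.sum_congr rfl fun i _ => ?_
    rw [← Finset.sum_mul, hW1, one_mul]
  have h3 : Fp p mu = ∑ i, ∑ j, ‖inner ℂ (a i) (b j)‖ ^ 2 * |mu j| ^ p := by
    unfold Fp
    rw [Finset.sum_comm]
    refine Finset.sum_congr rfl fun j _ => ?_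
    rw [← Finset.sum_mul, hW2, one_mul]
  rw [h1, h2, h3]
  simp only [Finset.mul_sum, ← Finset.sum_sub_distrib, ← Finset.sum_add_distrib]
  refine Finset.sum_congr rfl fun i _ => Finset.sum_congr rfl fun j _ => ?_
  have := gg_mul hp (mu j)
  unfold bb
  rw [← this]
  ring

theorem klein_nonneg {p : ℝ} (hp : 1 < p) {S : E →ₗ[ℂ] E} {a b : OrthonormalBasis (Fin n) ℂ E}
    {lam mu : Fin n → ℝ} (hS : Eig S a lam) :
    0 ≤ Fp p lam - Fp p mu - p * LL p b mu S + p * Fp p mu := by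
  rw [klein hp (T := S) hS]
  exact Finset.sum_nonneg fun i _ => Finset.sum_nonneg fun j _ =>
    mul_nonneg (by positivity) (bb_nonneg hp _ _)

theorem klein_symm {p : ℝ} (hp : 1 < p) {S T : E →ₗ[ℂ] E}
    {a b : OrthonormalBasis (Fin n) ℂ E}
    {lam mu : Fin n → ℝ} (hS : Eig S a lam) (hT : Eig T b mu) :
    Fp p lam - Fp p mu - p * LL p b mu S + p * Fp p mu ≤
      (1 / cc p) * (Fp p mu - Fp p lam - p * LL p a lam T + p * Fp p lam) := by
  rw [klein hp (T := S) hS, klein hp (T := T) hT, Finset.sum_comm, Finset.mul_sum]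
  refine Finset.sum_le_sum fun j _ => ?_
  rw [Finset.mul_sum]
  refine Finset.sum_le_sum fun i _ => ?_
  have h1 : ‖inner ℂ (b j) (a i)‖ = ‖inner ℂ (a i) (b j)‖ := norm_inner_symm _ _
  rw [h1]
  have h2 := bb_symm hp (lam i) (mu j)
  have h3 : 0 ≤ ‖inner ℂ (a i) (b j)‖ ^ 2 := by positivity
  calc _ ≤ ‖inner ℂ (a i) (b j)‖ ^ 2 * ((1 / cc p) * bb p (mu j) (lam i)) :=
        mul_le_mul_of_nonneg_left h2 h3
    _ = _ := by ring

theorem Fp_indep {p : ℝ} (hp : 1 < p) {T : E →ₗ[ℂ] E} (hsym : T.IsSymmetric)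
    {a b : OrthonormalBasis (Fin n) ℂ E}
    {lam mu : Fin n → ℝ} (ha : Eig T a lam) (hb : Eig T b mu) : Fp p lam = Fp p mu := by
  have h1 := klein (b := b) (mu := mu) hp (T := T) ha
  rw [LL_self hp hb] at h1
  have h2 : ∑ i, ∑ j, ‖inner ℂ (a i) (b j)‖ ^ 2 * bb p (lam i) (mu j) = 0 := by
    refine Finset.sum_eq_zero fun i _ => Finset.sum_eq_zero fun j _ => ?_
    have h3 : ((lam i : ℝ) : ℂ) * inner ℂ (a i) (b j) =
        ((mu j : ℝ) : ℂ) * inner ℂ (a i) (b j) := by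
      have := hsym (a i) (b j)
      rw [ha i, hb j, inner_smul_left, inner_smul_right, Complex.conj_ofReal] at this
      exact this
    by_cases h4 : inner ℂ (a i) (b j) = 0
    · rw [h4]
      simp
    · have h5 : lam i = mu j := by
        have := mul_right_cancel₀ h4 h3
        exact_mod_cast this
      rw [h5]
      unfold bb
      simp
  rw [h2] at h1
  linarith

end op

section dil

variable {N M : ℕ}

/-- The Hermitian dilation as an operator. -/
noncomputable def dil (X : Matrix (Fin N) (Fin M) ℂ) :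
    EuclideanSpace ℂ (Fin N ⊕ Fin M) →ₗ[ℂ] EuclideanSpace ℂ (Fin N ⊕ Fin M) :=
  toEuclideanLin (fromBlocks 0 X Xᴴ 0)

theorem dil_symm (X : Matrix (Fin N) (Fin M) ℂ) : (dil X).IsSymmetric := by
  apply isSymmetric_toEuclideanLin_iff.mpr
  unfold Matrix.IsHermitian
  rw [fromBlocks_conjTranspose]
  simp

theorem dil_add (X Y : Matrix (Fin N) (Fin M) ℂ) : dil (X + Y) = dil X + dil Y := by
  unfold dil
  rw [← map_add, fromBlocks_add]
  simp

theorem dil_smul (c : ℝ) (X : Matrix (Fin N) (Fin M) ℂ) : dil (c • X) = (c : ℂ) • dil X := by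
  unfold dil
  rw [← map_smul, fromBlocks_smul]
  congr 1
  ext i j
  rcases i with i | i <;> rcases j with j | j <;> simp

/-- singular values -/
noncomputable def sv (X : Matrix (Fin N) (Fin M) ℂ) (i : Fin M) : ℝ :=
  Real.sqrt ((isHermitian_conjTranspose_mul_self X).eigenvalues i)

/-- the Schatten norm -/
noncomputable def sch (p : ℝ) (X : Matrix (Fin N) (Fin M) ℂ) : ℝ := (∑ i, sv X i ^ p) ^ (1 / p)

noncomputable def nn (N M : ℕ) : ℕ := Module.finrank ℂ (EuclideanSpace ℂ (Fin N ⊕ Fin M))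

theorem exists_eig (X : Matrix (Fin N) (Fin M) ℂ) :
    ∃ (b : OrthonormalBasis (Fin (nn N M)) ℂ (EuclideanSpace ℂ (Fin N ⊕ Fin M)))
      (mu : Fin (nn N M) → ℝ), Eig (dil X) b mu :=
  ⟨(dil_symm X).eigenvectorBasis rfl, (dil_symm X).eigenvalues rfl,
    fun i => (dil_symm X).apply_eigenvectorBasis rfl i⟩

/-- lower component -/
noncomputable def yy (v : EuclideanSpace ℂ (Fin N ⊕ Fin M)) : EuclideanSpace ℂ (Fin M) :=
  WithLp.toLp 2 fun i => v (Sum.inr i)

/-- upper component -/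
noncomputable def xx (v : EuclideanSpace ℂ (Fin N ⊕ Fin M)) : EuclideanSpace ℂ (Fin N) :=
  WithLp.toLp 2 fun i => v (Sum.inl i)

/-- inclusion of the lower component -/
noncomputable def inj (N : ℕ) {M : ℕ} (v : EuclideanSpace ℂ (Fin M)) :
    EuclideanSpace ℂ (Fin N ⊕ Fin M) :=
  WithLp.toLp 2 (Sum.elim (fun _ => 0) v)

theorem norm_sq_split (v : EuclideanSpace ℂ (Fin N ⊕ Fin M)) :
    ‖v‖ ^ 2 = ‖xx v‖ ^ 2 + ‖yy v‖ ^ 2 := by
  rw [EuclideanSpace.norm_sq_eq, EuclideanSpace.norm_sq_eq, EuclideanSpace.norm_sq_eq,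
    Fintype.sum_sum_type]
  rfl

theorem inner_inj (b : EuclideanSpace ℂ (Fin M)) (v : EuclideanSpace ℂ (Fin N ⊕ Fin M)) :
    inner ℂ (inj N b) v = inner ℂ b (yy v) := by
  simp [PiLp.inner_apply, inj, yy]

theorem norm_inj (b : EuclideanSpace ℂ (Fin M)) : ‖inj N b‖ ^ 2 = ‖b‖ ^ 2 := by
  rw [EuclideanSpace.norm_sq_eq, EuclideanSpace.norm_sq_eq, Fintype.sum_sum_type]
  simp [inj]

theorem xx_dil (X : Matrix (Fin N) (Fin M) ℂ) (v : EuclideanSpace ℂ (Fin N ⊕ Fin M)) :
    xx (dil X v) = toEuclideanLin X (yy v) := by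
  apply PiLp.ext
  intro i
  simp [xx, yy, dil, toLpLin_apply, mulVec, dotProduct]

theorem yy_dil (X : Matrix (Fin N) (Fin M) ℂ) (v : EuclideanSpace ℂ (Fin N ⊕ Fin M)) :
    yy (dil X v) = toEuclideanLin Xᴴ (xx v) := by
  apply PiLp.ext
  intro i
  simp [xx, yy, dil, toLpLin_apply, mulVec, dotProduct]

theorem adj (X : Matrix (Fin N) (Fin M) ℂ) (y : EuclideanSpace ℂ (Fin M))
    (z : EuclideanSpace ℂ (Fin N)) :
    inner ℂ (toEuclideanLin X y) z = inner ℂ y (toEuclideanLin Xᴴ z) := by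
  rw [EuclideanSpace.inner_eq_star_dotProduct, EuclideanSpace.inner_eq_star_dotProduct]
  simp only [toLpLin_apply]
  rw [star_mulVec, dotProduct_comm, ← dotProduct_mulVec, dotProduct_comm]

theorem dil_Fp {p : ℝ} (hp : 1 < p) (X : Matrix (Fin N) (Fin M) ℂ)
    {b : OrthonormalBasis (Fin (nn N M)) ℂ (EuclideanSpace ℂ (Fin N ⊕ Fin M))}
    {mu : Fin (nn N M) → ℝ} (h : Eig (dil X) b mu) :
    Fp p mu = 2 * ∑ i, sv X i ^ p := by
  have hp0 : 0 < p := by linarith
  let e := (isHermitian_conjTranspose_mul_self X).eigenvectorBasis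
  have he : ∀ i, toEuclideanLin Xᴴ (toEuclideanLin X (e i)) =
      (((isHermitian_conjTranspose_mul_self X).eigenvalues i : ℝ) : ℂ) • e i := by
    intro i
    have := (isHermitian_conjTranspose_mul_self X).mulVec_eigenvectorBasis i
    rw [← mulVec_mulVec] at this
    apply PiLp.ext
    intro x
    have h3 := congrFun this x
    simpa [toLpLin_apply, e] using h3
  have hx : ∀ j, toEuclideanLin X (yy (b j)) = ((mu j : ℝ) : ℂ) • xx (b j) := by
    intro j
    rw [← xx_dil, h j]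
    rfl
  have hy : ∀ j, toEuclideanLin Xᴴ (xx (b j)) = ((mu j : ℝ) : ℂ) • yy (b j) := by
    intro j
    rw [← yy_dil, h j]
    rfl
  have hyy : ∀ j, toEuclideanLin Xᴴ (toEuclideanLin X (yy (b j))) =
      (((mu j) ^ 2 : ℝ) : ℂ) • yy (b j) := by
    intro j
    rw [hx, map_smul, hy, smul_smul]
    congr 1
    push_cast
    ring
  -- norms of the components
  have hnorm : ∀ j, |mu j| ^ p * ‖xx (b j)‖ ^ 2 = |mu j| ^ p * ‖yy (b j)‖ ^ 2 := by
    intro j
    by_cases hm : mu j = 0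
    · rw [hm]
      simp [Real.zero_rpow hp0.ne']
    · have h1 := adj X (yy (b j)) (toEuclideanLin X (yy (b j)))
      rw [hyy, hx, inner_smul_right, inner_smul_right, inner_smul_left, Complex.conj_ofReal,
        inner_self_eq_norm_sq_to_K, inner_self_eq_norm_sq_to_K] at h1
      have h2 : mu j * (mu j * ‖xx (b j)‖ ^ 2) = mu j ^ 2 * ‖yy (b j)‖ ^ 2 := by
        apply Complex.ofReal_injective
        push_cast
        push_cast at h1
        exact h1
      have h3 : mu j ^ 2 ≠ 0 := pow_ne_zero 2 hm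
      have h4 : ‖xx (b j)‖ ^ 2 = ‖yy (b j)‖ ^ 2 := by
        apply mul_left_cancel₀ h3
        rw [← h2]
        ring
      rw [h4]
  have h1 : Fp p mu = 2 * ∑ j, |mu j| ^ p * ‖yy (b j)‖ ^ 2 := by
    unfold Fp
    rw [Finset.mul_sum]
    refine Finset.sum_congr rfl fun j _ => ?_
    have h2 := norm_sq_split (b j)
    rw [b.norm_eq_one, one_pow] at h2
    have h3 := hnorm j
    calc |mu j| ^ p = |mu j| ^ p * 1 := by ring
      _ = |mu j| ^ p * (‖xx (b j)‖ ^ 2 + ‖yy (b j)‖ ^ 2) := by rw [← h2]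
      _ = 2 * (|mu j| ^ p * ‖yy (b j)‖ ^ 2) := by
        rw [mul_add, h3]
        ring
  rw [h1]
  congr 1
  have h2 : ∀ j, |mu j| ^ p * ‖yy (b j)‖ ^ 2 =
      ∑ i, sv X i ^ p * ‖inner ℂ (inj N (e i)) (b j)‖ ^ 2 := by
    intro j
    rw [← e.sum_sq_norm_inner_right (yy (b j)), Finset.mul_sum]
    refine Finset.sum_congr rfl fun i _ => ?_
    rw [inner_inj]
    by_cases h0 : inner ℂ (e i) (yy (b j)) = 0
    · rw [h0]
      simp
    · congr 1
      have h3 : (((isHermitian_conjTranspose_mul_self X).eigenvalues i : ℝ) : ℂ) *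
          inner ℂ (e i) (yy (b j)) = (((mu j) ^ 2 : ℝ) : ℂ) * inner ℂ (e i) (yy (b j)) := by
        have a1 := adj X (e i) (toEuclideanLin X (yy (b j)))
        rw [hyy, inner_smul_right] at a1
        have a2 := adj X (yy (b j)) (toEuclideanLin X (e i))
        rw [he, inner_smul_right] at a2
        have a3 := congrArg (starRingEnd ℂ) a2
        rw [inner_conj_symm, map_mul, inner_conj_symm, Complex.conj_ofReal] at a3
        rw [← a3, ← a1]
      have h4 := mul_right_cancel₀ h0 h3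
      have h5 : (isHermitian_conjTranspose_mul_self X).eigenvalues i = mu j ^ 2 := by
        exact_mod_cast h4
      unfold sv
      rw [h5, Real.sqrt_sq_eq_abs]
  simp_rw [h2]
  rw [Finset.sum_comm]
  refine Finset.sum_congr rfl fun i _ => ?_
  rw [← Finset.mul_sum, b.sum_sq_norm_inner_left, norm_inj, e.norm_eq_one]
  ring

theorem sv_nonneg (X : Matrix (Fin N) (Fin M) ℂ) (i : Fin M) : 0 ≤ sv X i := Real.sqrt_nonneg _

theorem sch_nonneg (p : ℝ) (X : Matrix (Fin N) (Fin M) ℂ) : 0 ≤ sch p X :=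
  Real.rpow_nonneg (Finset.sum_nonneg fun i _ => Real.rpow_nonneg (sv_nonneg X i) _) _

theorem Fp_sch {p : ℝ} (hp : 1 < p) (X : Matrix (Fin N) (Fin M) ℂ)
    {b : OrthonormalBasis (Fin (nn N M)) ℂ (EuclideanSpace ℂ (Fin N ⊕ Fin M))}
    {mu : Fin (nn N M) → ℝ} (h : Eig (dil X) b mu) :
    Fp p mu = 2 * sch p X ^ p := by
  rw [dil_Fp hp X h, sch, ← Real.rpow_mul (Finset.sum_nonneg fun i _ =>
    Real.rpow_nonneg (sv_nonneg X i) _), one_div, inv_mul_cancel₀ (by linarith), Real.rpow_one]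

theorem dil_inj {X : Matrix (Fin N) (Fin M) ℂ} (h : dil X = 0) : X = 0 := by
  unfold dil at h
  have h1 : (fromBlocks 0 X Xᴴ 0 : Matrix (Fin N ⊕ Fin M) (Fin N ⊕ Fin M) ℂ) = 0 :=
    (LinearEquiv.map_eq_zero_iff _).1 h
  ext i j
  have := congrFun (congrFun h1 (Sum.inl i)) (Sum.inr j)
  simpa using this

theorem sch_eq_zero {p : ℝ} (hp : 1 < p) (X : Matrix (Fin N) (Fin M) ℂ) (h : sch p X = 0) :
    X = 0 := by
  have hp0 : 0 < p := by linarith
  obtain ⟨b, mu, hb⟩ := exists_eig X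
  have h1 := Fp_sch hp X hb
  rw [h, Real.zero_rpow hp0.ne', mul_zero] at h1
  unfold Fp at h1
  rw [Finset.sum_eq_zero_iff_of_nonneg fun i _ => by positivity] at h1
  apply dil_inj
  apply b.toBasis.ext
  intro i
  have h2 : |mu i| ^ p = 0 := h1 i (Finset.mem_univ _)
  have h3 : mu i = 0 := by
    have := (Real.rpow_eq_zero (abs_nonneg _) hp0.ne').1 h2
    exact abs_eq_zero.1 this
  rw [OrthonormalBasis.coe_toBasis, hb i, h3]
  simp

theorem sch_smul {p : ℝ} (hp : 1 < p) (c : ℝ) (X : Matrix (Fin N) (Fin M) ℂ) (hc : 0 ≤ c) :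
    sch p (c • X) = c * sch p X := by
  have hp0 : 0 < p := by linarith
  obtain ⟨b, mu, hb⟩ := exists_eig X
  have h1 := Fp_sch hp X hb
  have h2 : Eig (dil (c • X)) b (fun i => c * mu i) := by
    intro i
    rw [dil_smul, LinearMap.smul_apply, hb i, smul_smul]
    congr 1
    push_cast
    ring
  have h3 := Fp_sch hp _ h2
  have h4 : Fp p (fun i => c * mu i) = c ^ p * Fp p mu := by
    unfold Fp
    rw [Finset.mul_sum]
    refine Finset.sum_congr rfl fun i _ => ?_
    rw [abs_mul, Real.mul_rpow (abs_nonneg _) (abs_nonneg _), abs_of_nonneg hc]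
  rw [h4, h1] at h3
  have h5 : sch p (c • X) ^ p = (c * sch p X) ^ p := by
    rw [Real.mul_rpow hc (sch_nonneg _ _)]
    linarith
  exact (Real.rpow_left_inj (sch_nonneg _ _) (mul_nonneg hc (sch_nonneg _ _)) hp0.ne').1 h5

/-- the functional -/
noncomputable def fl (p : ℝ)
    (b : OrthonormalBasis (Fin (nn N M)) ℂ (EuclideanSpace ℂ (Fin N ⊕ Fin M)))
    (mu : Fin (nn N M) → ℝ) : Matrix (Fin N) (Fin M) ℂ →ₗ[ℝ] ℝ where
  toFun X := 1 / 2 * LL p b mu (dil X)
  map_add' X Y := by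
    unfold LL
    rw [dil_add, ← mul_add, ← Finset.sum_add_distrib]
    congr 1
    refine Finset.sum_congr rfl fun j _ => ?_
    rw [LinearMap.add_apply, inner_add_right, Complex.add_re]
    ring
  map_smul' c X := by
    unfold LL
    rw [dil_smul, Finset.mul_sum, Finset.mul_sum, Finset.smul_sum]
    refine Finset.sum_congr rfl fun j _ => ?_
    rw [LinearMap.smul_apply, inner_smul_right, Complex.re_ofReal_mul]
    simp
    ring

theorem fl_apply (p : ℝ)
    (b : OrthonormalBasis (Fin (nn N M)) ℂ (EuclideanSpace ℂ (Fin N ⊕ Fin M)))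
    (mu : Fin (nn N M) → ℝ) (X : Matrix (Fin N) (Fin M) ℂ) :
    LL p b mu (dil X) = 2 * fl p b mu X := by
  show _ = 2 * (1 / 2 * LL p b mu (dil X))
  ring

theorem sch_hlawka {p : ℝ} (hp : 1 < p) (X Y Z : Matrix (Fin N) (Fin M) ℂ) :
    sch p X + sch p Y + sch p Z - sch p (X + Y + Z) ≤
      (1 + 2 * (1 / cc p)) * ((sch p X + sch p Y - sch p (X + Y)) +
        (sch p X + sch p Z - sch p (X + Z)) + (sch p Y + sch p Z - sch p (Y + Z))) := by
  have hp0 : 0 < p := by linarith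
  have hcc := cc_pos hp
  have hK0 : 0 < 1 / cc p := by positivity
  refine hlawka (sch p) (1 + 2 * (1 / cc p)) (by positivity) (sch_nonneg p)
    (sch_eq_zero hp) (fun c x hc => sch_smul hp c x hc) (fun u hu => ?_) X Y Z
  obtain ⟨b, mu, hb⟩ := exists_eig u
  have hFu := Fp_sch hp u hb
  rw [hu, Real.one_rpow, mul_one] at hFu
  have I1 : ∀ x, p * fl p b mu x ≤ sch p x ^ p - 1 + p := by
    intro x
    obtain ⟨a, lam, ha⟩ := exists_eig x
    have h1 := klein_nonneg (b := b) (mu := mu) hp ha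
    rw [Fp_sch hp x ha, hFu, fl_apply] at h1
    linarith
  refine ⟨fl p b mu, ?_, fun x => ?_, fun w hw => ?_⟩
  · have h1 := fl_apply p b mu u
    rw [LL_self hp hb, hFu] at h1
    linarith
  · by_cases h : sch p x = 0
    · have := sch_eq_zero hp x h
      subst this
      rw [map_zero]
      exact sch_nonneg _ _
    · have hpos : 0 < sch p x := lt_of_le_of_ne (sch_nonneg _ _) (Ne.symm h)
      have h1 := I1 ((sch p x)⁻¹ • x)
      rw [sch_smul hp _ _ (inv_nonneg.2 hpos.le), inv_mul_cancel₀ h, Real.one_rpow,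
        map_smul, smul_eq_mul] at h1
      have h2 : (sch p x)⁻¹ * fl p b mu x ≤ 1 := by
        have : p * ((sch p x)⁻¹ * fl p b mu x) ≤ p * 1 := by linarith
        exact le_of_mul_le_mul_left this hp0
      rw [inv_mul_le_iff₀ hpos] at h2
      linarith
  · -- the main point
    set m : Matrix (Fin N) (Fin M) ℂ := (1 / 2 : ℝ) • (u + w) with hm
    obtain ⟨a, lam, ha⟩ := exists_eig w
    obtain ⟨c, nu, hcn⟩ := exists_eig m
    have hFw := Fp_sch hp w ha
    rw [hw, Real.one_rpow, mul_one] at hFw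
    have hFm := Fp_sch hp m hcn
    have hs : sch p m = 1 / 2 * sch p (u + w) := sch_smul hp _ _ (by norm_num)
    -- divergences
    have k1 := klein_nonneg (b := c) (mu := nu) hp ha
    have k2 := klein_symm hp hcn hb
    have k3 := klein_nonneg (b := c) (mu := nu) hp hb
    have l1 : fl p b mu m = 1 / 2 * (fl p b mu u + fl p b mu w) := by
      rw [hm, map_smul, map_add, smul_eq_mul]
    have l2 : fl p c nu m = 1 / 2 * (fl p c nu u + fl p c nu w) := by
      rw [hm, map_smul, map_add, smul_eq_mul]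
    have l3 : 2 * fl p c nu m = Fp p nu := by
      rw [← fl_apply, LL_self hp hcn]
    have l4 : 2 * fl p b mu u = Fp p mu := by
      rw [← fl_apply, LL_self hp hb]
    rw [fl_apply] at k1 k3
    rw [fl_apply, fl_apply] at k2
    rw [hFw] at k1
    rw [hFu] at k2 k3 l4
    rw [hFm] at k1 k2 k3 l3
    have hber : 1 + p * (sch p m - 1) ≤ sch p m ^ p := by
      have := one_add_mul_self_le_rpow_one_add (s := sch p m - 1)
        (by linarith [sch_nonneg p m]) hp.le
      rwa [add_sub_cancel] at this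
    set mp := sch p m ^ p with hmp
    set q := fl p b mu w with hq
    set A1 := fl p c nu u with hA1
    set A2 := fl p c nu w with hA2
    set K0 := 1 / cc p with hK0'
    -- express everything
    have e1 : fl p b mu u = 1 := by linarith
    have e2 : fl p b mu m = 1 / 2 * (1 + q) := by rw [l1, e1]
    have e3 : A1 + A2 = 2 * mp := by linarith
    rw [e2] at k2
    -- k1: 0 ≤ 2 - 2 mp - p (2 A2) + p (2 mp)
    -- k3: 0 ≤ 2 - 2 mp - p (2 A1) + p (2 mp)
    -- k2: 2 mp - 2 - p (1 + q) + 2 p ≤ K0 (2 - 2 mp - 2 p A1 + 2 p mp)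
    have e4 : p * A1 + p * A2 = 2 * (p * mp) := by
      rw [← mul_add, e3]
      ring
    have k4 : 2 - 2 * mp - p * (2 * A1) + p * (2 * mp) ≤ 4 - 4 * mp := by nlinarith
    have k5 : K0 * (2 - 2 * mp - p * (2 * A1) + p * (2 * mp)) ≤ K0 * (4 - 4 * mp) :=
      mul_le_mul_of_nonneg_left k4 hK0.le
    have k6 : 2 * p * (1 - q) ≤ (1 + 2 * K0) * (4 - 4 * mp) := by nlinarith
    have k7 : (1 + 2 * K0) * (4 - 4 * mp) ≤ (1 + 2 * K0) * (4 * p * (1 - sch p m)) := by
      apply mul_le_mul_of_nonneg_left _ (by positivity)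
      nlinarith
    have k8 : 2 * p * (1 - q) ≤ 2 * p * ((1 + 2 * K0) * (2 - sch p (u + w))) := by
      rw [hs] at k7
      nlinarith
    exact le_of_mul_le_mul_left k8 (by positivity)

end dil

end Pool.Agent.Q197.Sch
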