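import Mathlib

/-!
# The Hlawka-type constant of the trace norm is infinite

`MP_1619cf_an`, Q1, asks for the constants `C_p` of the Schatten norms. Here `C_1 = ∞`: already for
`3 × 3` matrices and the trace norm the quotient `D_3 / (D_2 + D_2 + D_2)` is unbounded.

The matrices are `X = E₁₁`, `Y = E₂₂` and `Z = v vᵀ + i ε (v e₃ᵀ + e₃ vᵀ)` with `v = e₁ + e₂`. Then
`D_3 = (2/3) ε² + O(ε⁴)` while the three quantities `D_2` are at most `2 ε⁴`. Lower bounds for the
trace norm are obtained with explicit unitary matrices, upper bounds with explicit decompositions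
into matrices of rank one.
-/

namespace Pool.Agent.Q197.TraceOne

open Finset Matrix Complex

/-- The trace norm (Schatten `1`-norm): the sum of the singular values, i.e. of the square roots of
the eigenvalues of `Aᴴ A`. -/
noncomputable def traceNorm {N : ℕ} (A : Matrix (Fin N) (Fin N) ℂ) : ℝ :=
  ∑ i, Real.sqrt ((isHermitian_conjTranspose_mul_self A).eigenvalues i)

/-- `D_2` for the trace norm. -/
noncomputable def D2 {N : ℕ} (X Y : Matrix (Fin N) (Fin N) ℂ) : ℝ :=
  traceNorm X + traceNorm Y - traceNorm (X + Y)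

/-- `D_3` for the trace norm. -/
noncomputable def D3 {N : ℕ} (X Y Z : Matrix (Fin N) (Fin N) ℂ) : ℝ :=
  traceNorm X + traceNorm Y + traceNorm Z - traceNorm (X + Y + Z)

section tools

variable {N : ℕ} (A : Matrix (Fin N) (Fin N) ℂ)

/-- eigenbasis of `Aᴴ A` -/
noncomputable def eb : OrthonormalBasis (Fin N) ℂ (EuclideanSpace ℂ (Fin N)) :=
  (isHermitian_conjTranspose_mul_self A).eigenvectorBasis

theorem inner_eb (i j : Fin N) :
    inner ℂ (toEuclideanLin A (eb A i)) (toEuclideanLin A (eb A j)) =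
      if i = j then (((isHermitian_conjTranspose_mul_self A).eigenvalues j : ℝ) : ℂ) else 0 := by
  have h1 : inner ℂ (toEuclideanLin A (eb A i)) (toEuclideanLin A (eb A j)) =
      inner ℂ (eb A i) (toEuclideanLin (Aᴴ * A) (eb A j)) := by
    rw [EuclideanSpace.inner_eq_star_dotProduct, EuclideanSpace.inner_eq_star_dotProduct]
    simp only [toLpLin_apply]
    rw [← mulVec_mulVec, star_mulVec, dotProduct_comm, dotProduct_comm _ (star _),
      ← dotProduct_mulVec]
  have h2 : toEuclideanLin (Aᴴ * A) (eb A j) =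
      (((isHermitian_conjTranspose_mul_self A).eigenvalues j : ℝ) : ℂ) • eb A j := by
    have := (isHermitian_conjTranspose_mul_self A).mulVec_eigenvectorBasis j
    apply PiLp.ext
    intro x
    have h3 := congrFun this x
    simpa [toLpLin_apply, eb] using h3
  rw [h1, h2, inner_smul_right]
  split_ifs with h
  · subst h
    simp
  · rw [(eb A).inner_eq_zero h]
    simp

theorem norm_eb (i : Fin N) : ‖toEuclideanLin A (eb A i)‖ =
    Real.sqrt ((isHermitian_conjTranspose_mul_self A).eigenvalues i) := by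
  have h := inner_eb A i i
  rw [if_pos rfl, inner_self_eq_norm_sq_to_K] at h
  have h2 : ‖toEuclideanLin A (eb A i)‖ ^ 2 =
      (isHermitian_conjTranspose_mul_self A).eigenvalues i := by
    apply Complex.ofReal_injective
    rw [Complex.ofReal_pow]
    exact h
  rw [← h2, Real.sqrt_sq (norm_nonneg _)]

theorem traceNorm_eq : traceNorm A = ∑ i, ‖toEuclideanLin A (eb A i)‖ := by
  simp only [traceNorm, norm_eb]

/-- completeness -/
theorem eb_complete (x y : Fin N) : ∑ i, eb A i x * star (eb A i y) = if x = y then 1 else 0 := by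
  have h := (eb A).sum_inner_mul_inner (EuclideanSpace.single x (1 : ℂ))
    (EuclideanSpace.single y (1 : ℂ))
  simp only [EuclideanSpace.inner_single_left, EuclideanSpace.inner_single_right] at h
  simpa [Pi.single_apply, eq_comm] using h

/-- Lower bound by a unitary matrix. -/
theorem le_traceNorm (U : Matrix (Fin N) (Fin N) ℂ) (hU : Uᴴ * U = 1) :
    (∑ x, ∑ y, star (U x y) * A x y).re ≤ traceNorm A := by
  have h1 : ∑ x, ∑ y, star (U x y) * A x y =
      ∑ i, inner ℂ (toEuclideanLin U (eb A i)) (toEuclideanLin A (eb A i)) := by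
    have e1 : ∀ i, inner ℂ (toEuclideanLin U (eb A i)) (toEuclideanLin A (eb A i)) =
        ∑ x, (∑ y, A x y * eb A i y) * ∑ z, star (U x z) * star (eb A i z) := by
      intro i
      simp only [PiLp.inner_apply, RCLike.inner_apply, toLpLin_apply, mulVec, dotProduct,
        map_sum, map_mul]
      rfl
    simp_rw [e1]
    have e3 : ∑ i, ∑ x, (∑ y, A x y * eb A i y) * ∑ z, star (U x z) * star (eb A i z) =
        ∑ x, ∑ i, (∑ y, A x y * eb A i y) * ∑ z, star (U x z) * star (eb A i z) :=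
      Finset.sum_comm
    rw [e3]
    refine Finset.sum_congr rfl fun x _ => ?_
    simp_rw [Finset.sum_mul_sum]
    have e2 : ∀ (y z : Fin N), ∑ i, A x y * eb A i y * (star (U x z) * star (eb A i z)) =
        A x y * star (U x z) * if y = z then 1 else 0 := by
      intro y z
      rw [← eb_complete A y z, Finset.mul_sum]
      refine Finset.sum_congr rfl fun i _ => ?_
      ring
    have e4 : ∑ i, ∑ y, ∑ z, A x y * eb A i y * (star (U x z) * star (eb A i z)) =
        ∑ y, ∑ z, ∑ i, A x y * eb A i y * (star (U x z) * star (eb A i z)) := by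
      rw [Finset.sum_comm]
      refine Finset.sum_congr rfl fun y _ => ?_
      rw [Finset.sum_comm]
    rw [e4]
    simp_rw [e2]
    refine Finset.sum_congr rfl fun y _ => ?_
    simp [mul_comm]
  rw [h1, Complex.re_sum, traceNorm_eq]
  refine Finset.sum_le_sum fun i _ => ?_
  have h2 : ‖toEuclideanLin U (eb A i)‖ = 1 := by
    have h3 : inner ℂ (toEuclideanLin U (eb A i)) (toEuclideanLin U (eb A i)) =
        inner ℂ (eb A i) (eb A i) := by
      rw [EuclideanSpace.inner_eq_star_dotProduct, EuclideanSpace.inner_eq_star_dotProduct]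
      simp only [toLpLin_apply]
      rw [star_mulVec, dotProduct_comm, ← dotProduct_mulVec, mulVec_mulVec, hU, one_mulVec,
        dotProduct_comm]
    rw [inner_self_eq_norm_sq_to_K, inner_self_eq_norm_sq_to_K, (eb A).norm_eq_one] at h3
    have h4 : ‖toEuclideanLin U (eb A i)‖ ^ 2 = 1 := by
      have : ((‖toEuclideanLin U (eb A i)‖ ^ 2 : ℝ) : ℂ) = ((1 : ℝ) : ℂ) := by
        push_cast
        simpa using h3
      exact_mod_cast this
    nlinarith [norm_nonneg (toEuclideanLin U (eb A i))]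
  refine (Complex.re_le_norm _).trans ((norm_inner_le_norm _ _).trans ?_)
  rw [h2, one_mul]

/-- Upper bound by a decomposition into matrices of rank one. -/
theorem traceNorm_le {κ : Type*} [Fintype κ] (x y : κ → EuclideanSpace ℂ (Fin N))
    (hA : ∀ p q, A p q = ∑ k, x k p * star (y k q)) :
    traceNorm A ≤ ∑ k, ‖x k‖ * ‖y k‖ := by
  classical
  let w : Fin N → EuclideanSpace ℂ (Fin N) := fun i =>
    ((‖toEuclideanLin A (eb A i)‖⁻¹ : ℝ) : ℂ) • toEuclideanLin A (eb A i)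
  have hw : ∀ z, ∑ i, ‖inner ℂ (w i) z‖ ^ 2 ≤ ‖z‖ ^ 2 := by
    intro z
    let S : Finset (Fin N) := Finset.univ.filter fun i => toEuclideanLin A (eb A i) ≠ 0
    have hS : ∑ i, ‖inner ℂ (w i) z‖ ^ 2 = ∑ i : {i // i ∈ S}, ‖inner ℂ (w i) z‖ ^ 2 := by
      rw [Finset.sum_coe_sort S (fun i => ‖inner ℂ (w i) z‖ ^ 2)]
      symm
      refine Finset.sum_subset (Finset.subset_univ _) fun i _ hi => ?_
      have : toEuclideanLin A (eb A i) = 0 := by
        by_contra h
        exact hi (by simp [S, h])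
      simp [w, this]
    rw [hS]
    have ho : Orthonormal ℂ (fun i : {i // i ∈ S} => w i) := by
      constructor
      · intro i
        have hi : toEuclideanLin A (eb A i) ≠ 0 := (Finset.mem_filter.1 i.2).2
        have hi' : ‖toEuclideanLin A (eb A i)‖ ≠ 0 := norm_ne_zero_iff.2 hi
        simp only [w, norm_smul, Complex.norm_real, norm_inv, norm_norm]
        exact inv_mul_cancel₀ hi'
      · intro i j hij
        have hij' : (i : Fin N) ≠ j := fun h => hij (Subtype.ext h)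
        simp only [w, inner_smul_left, inner_smul_right]
        rw [inner_eb, if_neg hij']
        simp
    exact Orthonormal.sum_inner_products_le z ho (s := Finset.univ)
  have h1 : ∀ i, ((‖toEuclideanLin A (eb A i)‖ : ℝ) : ℂ) =
      inner ℂ (w i) (toEuclideanLin A (eb A i)) := by
    intro i
    simp only [w, inner_smul_left, inner_self_eq_norm_sq_to_K]
    by_cases h : ‖toEuclideanLin A (eb A i)‖ = 0
    · simp [h]
    · have e : ((‖toEuclideanLin A (eb A i)‖ : ℝ) : ℂ) =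
          ((‖toEuclideanLin A (eb A i)‖⁻¹ : ℝ) : ℂ) *
            ((‖toEuclideanLin A (eb A i)‖ : ℝ) : ℂ) ^ 2 := by
        rw [← Complex.ofReal_pow, ← Complex.ofReal_mul]
        congr 1
        field_simp
      rw [Complex.conj_ofReal]
      exact e
  have h2 : ∀ i, toEuclideanLin A (eb A i) = ∑ k, inner ℂ (y k) (eb A i) • x k := by
    intro i
    apply PiLp.ext
    intro p
    have : (∑ k, inner ℂ (y k) (eb A i) • x k) p = ∑ k, inner ℂ (y k) (eb A i) * x k p := by
      simp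
    rw [this]
    have e1 : toEuclideanLin A (eb A i) p = ∑ q, A p q * eb A i q := by
      simp [toLpLin_apply, mulVec, dotProduct]
    rw [e1]
    simp_rw [hA, Finset.sum_mul]
    rw [Finset.sum_comm]
    refine Finset.sum_congr rfl fun k _ => ?_
    simp only [PiLp.inner_apply, RCLike.inner_apply, Finset.sum_mul]
    refine Finset.sum_congr rfl fun q _ => ?_
    have : (starRingEnd ℂ) (y k q) = star (y k q) := rfl
    rw [this]
    ring
  have h3 : ((traceNorm A : ℝ) : ℂ) = ∑ k, ∑ i, inner ℂ (y k) (eb A i) * inner ℂ (w i) (x k) := by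
    rw [traceNorm_eq, Complex.ofReal_sum, Finset.sum_comm]
    refine Finset.sum_congr rfl fun i _ => ?_
    rw [h1, h2, inner_sum]
    refine Finset.sum_congr rfl fun k _ => ?_
    rw [inner_smul_right]
  have h4 : traceNorm A ≤ ‖((traceNorm A : ℝ) : ℂ)‖ := by
    rw [Complex.norm_real]
    exact le_abs_self _
  refine h4.trans ?_
  rw [h3]
  refine (norm_sum_le _ _).trans (Finset.sum_le_sum fun k _ => ?_)
  refine (norm_sum_le _ _).trans ?_
  simp_rw [norm_mul]
  have h5 := Finset.sum_mul_sq_le_sq_mul_sq Finset.univ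
    (fun i => ‖inner ℂ (y k) (eb A i)‖) (fun i => ‖inner ℂ (w i) (x k)‖)
  have h6 : ∑ i, ‖inner ℂ (y k) (eb A i)‖ ^ 2 = ‖y k‖ ^ 2 := (eb A).sum_sq_norm_inner_left (y k)
  rw [h6] at h5
  have h7 := hw (x k)
  have h8 : (∑ i, ‖inner ℂ (y k) (eb A i)‖ * ‖inner ℂ (w i) (x k)‖) ^ 2 ≤
      (‖x k‖ * ‖y k‖) ^ 2 := by
    refine h5.trans ?_
    rw [mul_pow, mul_comm]
    exact mul_le_mul_of_nonneg_right h7 (by positivity)
  exact le_of_sq_le_sq h8 (by positivity)

/-- The upper bound for complex symmetric matrices. -/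
theorem traceNorm_le_sym {κ : Type*} [Fintype κ] (c : κ → ℝ) (hc : ∀ k, 0 ≤ c k)
    (x : κ → Fin N → ℂ) (hA : ∀ p q, A p q = ∑ k, ((c k : ℝ) : ℂ) * (x k p * x k q)) :
    traceNorm A ≤ ∑ k, c k * ∑ p, ‖x k p‖ ^ 2 := by
  refine (traceNorm_le A (fun k => WithLp.toLp 2 fun p => ((c k : ℝ) : ℂ) * x k p)
    (fun k => WithLp.toLp 2 fun p => star (x k p)) fun p q => ?_).trans (le_of_eq ?_)
  · rw [hA]
    refine Finset.sum_congr rfl fun k _ => ?_
    simp only [star_star]
    ring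
  · refine Finset.sum_congr rfl fun k _ => ?_
    have h1 : ‖(WithLp.toLp 2 fun p => ((c k : ℝ) : ℂ) * x k p : EuclideanSpace ℂ (Fin N))‖ =
        c k * Real.sqrt (∑ p, ‖x k p‖ ^ 2) := by
      rw [EuclideanSpace.norm_eq]
      simp only [norm_mul, mul_pow, Complex.norm_real, Real.norm_eq_abs, sq_abs]
      rw [← Finset.mul_sum, Real.sqrt_mul (sq_nonneg _), Real.sqrt_sq (hc k)]
    have h2 : ‖(WithLp.toLp 2 fun p => star (x k p) : EuclideanSpace ℂ (Fin N))‖ =
        Real.sqrt (∑ p, ‖x k p‖ ^ 2) := by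
      rw [EuclideanSpace.norm_eq]
      simp
    rw [h1, h2, mul_assoc, Real.mul_self_sqrt (Finset.sum_nonneg fun p _ => by positivity)]

end tools

/-- `E₁₁` -/
noncomputable def X3 : Matrix (Fin 3) (Fin 3) ℂ := !![1, 0, 0; 0, 0, 0; 0, 0, 0]

/-- `E₂₂` -/
noncomputable def Y3 : Matrix (Fin 3) (Fin 3) ℂ := !![0, 0, 0; 0, 1, 0; 0, 0, 0]

/-- `v vᵀ + i ε (v e₃ᵀ + e₃ vᵀ)` -/
noncomputable def Z3 (e : ℝ) : Matrix (Fin 3) (Fin 3) ℂ :=
  !![1, 1, I * e; 1, 1, I * e; I * e, I * e, 0]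

theorem X_le : traceNorm X3 ≤ 1 := by
  refine (traceNorm_le_sym X3 (κ := Fin 1) (fun _ => 1) (fun _ => zero_le_one)
    (fun _ => ![1, 0, 0]) ?_).trans (le_of_eq ?_)
  · intro p q
    fin_cases p <;> fin_cases q <;> simp [X3]
  · simp [Fin.sum_univ_three]

theorem Y_le : traceNorm Y3 ≤ 1 := by
  refine (traceNorm_le_sym Y3 (κ := Fin 1) (fun _ => 1) (fun _ => zero_le_one)
    (fun _ => ![0, 1, 0]) ?_).trans (le_of_eq ?_)
  · intro p q
    fin_cases p <;> fin_cases q <;> simp [Y3]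
  · simp [Fin.sum_univ_three]

theorem Z_le (e : ℝ) : traceNorm (Z3 e) ≤ 2 + 2 * e ^ 2 := by
  refine (traceNorm_le_sym (Z3 e) (κ := Fin 2) (fun _ => 1) (fun _ => zero_le_one)
    ![![1, 1, I * e], ![0, 0, e]] ?_).trans (le_of_eq ?_)
  · intro p q
    fin_cases p <;> fin_cases q <;> simp [Z3, Fin.sum_univ_two]
    linear_combination -(e : ℂ) ^ 2 * I_sq
  · simp [Fin.sum_univ_three, Fin.sum_univ_two]
    ring

theorem M_le (e : ℝ) : traceNorm (X3 + Y3 + Z3 e) ≤ 4 + 4 / 3 * e ^ 2 := by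
  refine (traceNorm_le_sym (X3 + Y3 + Z3 e) (κ := Fin 3) ![1 / 2, 3 / 2, 2 / 3] ?_
    ![![1, -1, 0], ![1, 1, I * (2 / 3) * e], ![0, 0, e]] ?_).trans (le_of_eq ?_)
  · intro k
    fin_cases k <;> norm_num
  · intro p q
    fin_cases p <;> fin_cases q <;> simp [X3, Y3, Z3, Fin.sum_univ_three] <;> ring_nf
    simp [I_sq]
  · simp [Fin.sum_univ_three, mul_pow]
    ring

/-- unitary matrices -/
noncomputable def U1 (c s : ℝ) : Matrix (Fin 3) (Fin 3) ℂ := !![1, 0, 0; 0, c, I * s; 0, I * s, c]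

noncomputable def U1' (c s : ℝ) : Matrix (Fin 3) (Fin 3) ℂ := !![c, 0, I * s; 0, 1, 0; I * s, 0, c]

noncomputable def U2 (c g : ℝ) : Matrix (Fin 3) (Fin 3) ℂ :=
  !![(((c + 1) / 2 : ℝ) : ℂ), (((c - 1) / 2 : ℝ) : ℂ), I * g;
    (((c - 1) / 2 : ℝ) : ℂ), (((c + 1) / 2 : ℝ) : ℂ), I * g; I * g, I * g, c]

theorem U1_unit {c s : ℝ} (h : c ^ 2 + s ^ 2 = 1) : (U1 c s)ᴴ * U1 c s = 1 := by
  have hC : (c : ℂ) ^ 2 + (s : ℂ) ^ 2 = 1 := by exact_mod_cast h
  ext i j
  fin_cases i <;> fin_cases j <;>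
    simp [U1, Matrix.mul_apply, Fin.sum_univ_three, conjTranspose_apply]
  · linear_combination hC - (s : ℂ) ^ 2 * I_sq
  · ring
  · ring
  · linear_combination hC - (s : ℂ) ^ 2 * I_sq

theorem U1'_unit {c s : ℝ} (h : c ^ 2 + s ^ 2 = 1) : (U1' c s)ᴴ * U1' c s = 1 := by
  have hC : (c : ℂ) ^ 2 + (s : ℂ) ^ 2 = 1 := by exact_mod_cast h
  ext i j
  fin_cases i <;> fin_cases j <;>
    simp [U1', Matrix.mul_apply, Fin.sum_univ_three, conjTranspose_apply]
  · linear_combination hC - (s : ℂ) ^ 2 * I_sq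
  · ring
  · ring
  · linear_combination hC - (s : ℂ) ^ 2 * I_sq

theorem U2_unit {c g : ℝ} (h : c ^ 2 + 2 * g ^ 2 = 1) : (U2 c g)ᴴ * U2 c g = 1 := by
  have hC : (c : ℂ) ^ 2 + 2 * (g : ℂ) ^ 2 = 1 := by exact_mod_cast h
  ext i j
  fin_cases i <;> fin_cases j <;>
    simp [U2, Matrix.mul_apply, Fin.sum_univ_three, conjTranspose_apply, -ofReal_div,
      -ofReal_add, -ofReal_sub] <;> push_cast
  all_goals first
    | ring1
    | linear_combination (1 / 2) * hC - (g : ℂ) ^ 2 * I_sq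
    | linear_combination hC - 2 * (g : ℂ) ^ 2 * I_sq

theorem one_unit : (1 : Matrix (Fin 3) (Fin 3) ℂ)ᴴ * 1 = 1 := by simp

theorem X_ge : 1 ≤ traceNorm X3 := by
  have := le_traceNorm X3 1 one_unit
  simpa [X3, Fin.sum_univ_three] using this

theorem Y_ge : 1 ≤ traceNorm Y3 := by
  have := le_traceNorm Y3 1 one_unit
  simpa [Y3, Fin.sum_univ_three] using this

theorem XY_ge : 2 ≤ traceNorm (X3 + Y3) := by
  have := le_traceNorm (X3 + Y3) 1 one_unit
  have h : (1 : ℝ) + 1 = 2 := by norm_num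
  simpa [X3, Y3, Fin.sum_univ_three, h] using this

theorem XZ_ge {c s : ℝ} (h : c ^ 2 + s ^ 2 = 1) (e : ℝ) :
    2 + c + 2 * s * e ≤ traceNorm (X3 + Z3 e) := by
  refine le_trans (le_of_eq ?_) (le_traceNorm (X3 + Z3 e) (U1 c s) (U1_unit h))
  simp [X3, Z3, U1, Fin.sum_univ_three]
  ring

theorem YZ_ge {c s : ℝ} (h : c ^ 2 + s ^ 2 = 1) (e : ℝ) :
    2 + c + 2 * s * e ≤ traceNorm (Y3 + Z3 e) := by
  refine le_trans (le_of_eq ?_) (le_traceNorm (Y3 + Z3 e) (U1' c s) (U1'_unit h))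
  simp [Y3, Z3, U1', Fin.sum_univ_three]
  ring

theorem Z_ge {c g : ℝ} (h : c ^ 2 + 2 * g ^ 2 = 1) (e : ℝ) :
    2 * c + 4 * g * e ≤ traceNorm (Z3 e) := by
  refine le_trans (le_of_eq ?_) (le_traceNorm (Z3 e) (U2 c g) (U2_unit h))
  simp [Z3, U2, Fin.sum_univ_three, -ofReal_div, -ofReal_add, -ofReal_sub]
  ring

/-- `C_1 = ∞`: for every `C ≥ 0` there are `3 × 3` matrices which violate the inequality with the
constant `C` for the trace norm. -/
theorem trace_unbounded (C : ℝ) (hC : 0 ≤ C) : ∃ X Y Z : Matrix (Fin 3) (Fin 3) ℂ,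
    C * (D2 X Y + D2 X Z + D2 Y Z) < D3 X Y Z := by
  set e : ℝ := 1 / (4 * (C + 1)) with he
  have he0 : 0 < e := by positivity
  have he1 : e ≤ 1 / 4 := by
    rw [he]
    apply one_div_le_one_div_of_le (by norm_num)
    linarith
  have hCe : C * e ≤ 1 / 4 := by
    rw [he, mul_one_div, div_le_iff₀ (by positivity)]
    linarith
  have ht : e ^ 2 ≤ 1 / 16 := by nlinarith
  have hxy := XY_ge
  have hX := X_le
  have hY := Y_le
  have hX' := X_ge
  have hY' := Y_ge
  have hZ := Z_le e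
  have hM := M_le e
  have hp : (0 : ℝ) < 1 + e ^ 2 := by positivity
  have hp2 : (0 : ℝ) < 2 + e ^ 2 := by positivity
  have hcs : ((1 - e ^ 2) / (1 + e ^ 2)) ^ 2 + (2 * e / (1 + e ^ 2)) ^ 2 = 1 := by
    field_simp
    ring
  have hcg : ((2 - e ^ 2) / (2 + e ^ 2)) ^ 2 + 2 * (2 * e / (2 + e ^ 2)) ^ 2 = 1 := by
    field_simp
    ring
  have hXZ := XZ_ge hcs e
  have hYZ := YZ_ge hcs e
  have hZ' := Z_ge hcg e
  have e1 : 2 + (1 - e ^ 2) / (1 + e ^ 2) + 2 * (2 * e / (1 + e ^ 2)) * e =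
      3 + 2 * e ^ 2 - 2 * e ^ 4 / (1 + e ^ 2) := by
    field_simp
    ring
  have e2 : 2 * ((2 - e ^ 2) / (2 + e ^ 2)) + 4 * (2 * e / (2 + e ^ 2)) * e =
      2 + 2 * e ^ 2 - 2 * e ^ 4 / (2 + e ^ 2) := by
    field_simp
    ring
  rw [e1] at hXZ hYZ
  rw [e2] at hZ'
  have e3 : 2 * e ^ 4 / (1 + e ^ 2) ≤ 2 * e ^ 4 := by
    rw [div_le_iff₀ hp]
    have : 0 ≤ e ^ 4 * e ^ 2 := by positivity
    nlinarith
  have e4 : 2 * e ^ 4 / (2 + e ^ 2) ≤ e ^ 4 := by
    rw [div_le_iff₀ hp2]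
    have : 0 ≤ e ^ 4 * e ^ 2 := by positivity
    nlinarith
  refine ⟨X3, Y3, Z3 e, ?_⟩
  have hD2 : D2 X3 Y3 + D2 X3 (Z3 e) + D2 Y3 (Z3 e) ≤ 4 * e ^ 4 := by
    unfold D2
    linarith
  have hD3 : 2 / 3 * e ^ 2 - e ^ 4 ≤ D3 X3 Y3 (Z3 e) := by
    unfold D3
    linarith
  have h1 : C * (D2 X3 Y3 + D2 X3 (Z3 e) + D2 Y3 (Z3 e)) ≤ C * (4 * e ^ 4) :=
    mul_le_mul_of_nonneg_left hD2 hC
  have h2 : C * (4 * e ^ 4) = 4 * (C * e) * e * e ^ 2 := by ring
  have h3 : 4 * (C * e) * e * e ^ 2 ≤ 1 / 4 * e ^ 2 := by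
    apply mul_le_mul_of_nonneg_right _ (by positivity)
    nlinarith
  have h4 : e ^ 4 = e ^ 2 * e ^ 2 := by ring
  have h5 : 0 < e ^ 2 := by positivity
  nlinarith

end Pool.Agent.Q197.TraceOne
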